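import Pool.Agent.Helper834.Gen.Global

/-!
The variation of a liftable braid on the relative homology of the covering, for a covering of the
sphere by the sphere: the cut given by a tangency.
-/

namespace Pool.Agent.Helper834.Gen

open Pool.Agent.Helper496.BraidFact Pool.Agent.Helper834

variable {n d : ℕ}

/-- The class of the loop at infinity, lifted to the sheet `a`. -/
def bd (θ : FreeGroup (Fin d) →* Equiv.Perm (Fin n)) (hd : 0 < d) (a : Fin n) : Fin d → ℤ :=
  lam θ (pr hd d) a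

/-- The covering of the sphere is connected and of genus `0`, in homological form. -/
structure Rat (θ : FreeGroup (Fin d) →* Equiv.Perm (Fin n)) (hd : 0 < d) : Prop where
  simple : Simple θ
  trans : ∀ a b, ∃ x, θ x a = b
  span : ∀ x a, θ x a = a → lam θ x a ∈ Submodule.span ℤ (Set.range (bd θ hd))
  dual : ∀ i j : Fin n, ∃ R : (Fin d → ℤ) →ₗ[ℤ] ℤ, ∀ a,
    R (bd θ hd a) = (if a = j then 1 else 0) - (if a = i then 1 else 0)

/-- The variation of the braid `b` along the path `x` starting in the sheet `a`. -/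
def S (θ : FreeGroup (Fin d) →* Equiv.Perm (Fin n)) (b : BraidGroup d) (x : FreeGroup (Fin d))
    (a : Fin n) : Fin d → ℤ := lam θ (artin d b x) a - lam θ x a

variable {θ : FreeGroup (Fin d) →* Equiv.Perm (Fin n)} {hd : 0 < d}

theorem thg_of_mem {b : BraidGroup d} (hb : b ∈ LB θ) : thg θ b = θ := by
  ext1 k
  exact hb _

theorem mem_LB_iff {b : BraidGroup d} : b ∈ LB θ ↔ ∀ x, θ (artin d b x) = θ x := Iff.rfl

theorem S_closed (h : Rat θ hd) {b : BraidGroup d} (hb : b ∈ LB θ) {x : FreeGroup (Fin d)}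
    {a : Fin n} (hx : θ x a = a) : S θ b x a = 0 := by
  obtain ⟨L, hL⟩ := exists_L h.simple b
  rw [thg_of_mem hb] at hL
  have h1 : ∀ v ∈ Submodule.span ℤ (Set.range (bd θ hd)), L v = v := by
    intro v hv
    induction hv using Submodule.span_induction with
    | mem v hv =>
      obtain ⟨c, rfl⟩ := hv
      rw [bd, ← hL, artin_pr]
    | zero => rw [map_zero]
    | add u v _ _ hu hv => rw [map_add, hu, hv]
    | smul c v _ hv => rw [map_smul, hv]
  rw [S, hL, h1 _ (h.span x a hx), sub_self]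

theorem S_mul_path {b : BraidGroup d} (hb : b ∈ LB θ) (x y : FreeGroup (Fin d))
    (a : Fin n) : S θ b (x * y) a = S θ b y a + S θ b x (θ y a) := by
  rw [S, S, S, map_mul, lam_mul, lam_mul, mem_LB_iff.1 hb]
  abel

theorem S_inv_path {b : BraidGroup d} (hb : b ∈ LB θ) (x : FreeGroup (Fin d))
    (a : Fin n) : S θ b x⁻¹ (θ x a) = - S θ b x a := by
  have h1 := S_mul_path hb x⁻¹ x a
  rw [inv_mul_cancel] at h1
  have h2 : S θ b 1 a = 0 := by simp [S]
  rw [h2] at h1
  exact eq_neg_of_add_eq_zero_right h1.symm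

theorem S_eq (h : Rat θ hd) {b : BraidGroup d} (hb : b ∈ LB θ) {x y : FreeGroup (Fin d)}
    {a : Fin n} (hx : θ x a = θ y a) : S θ b x a = S θ b y a := by
  have h0 : θ (y⁻¹ * x) a = a := by
    rw [map_mul, Equiv.Perm.mul_apply, hx, map_inv]
    simp
  have h1 := S_closed h hb h0
  rw [S_mul_path hb, hx, S_inv_path hb] at h1
  have h2 := eq_neg_of_add_eq_zero_left h1
  rwa [neg_neg] at h2

theorem S_mul (h : Rat θ hd) {b c : BraidGroup d} (hb : b ∈ LB θ) (hc : c ∈ LB θ)
    (x : FreeGroup (Fin d)) (a : Fin n) : S θ (b * c) x a = S θ b x a + S θ c x a := by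
  have h1 : S θ b (artin d c x) a = S θ b x a := by
    apply S_eq h hb
    rw [mem_LB_iff.1 hc]
  rw [← h1, S, S, S, map_mul, MulAut.mul_apply]
  abel

theorem S_one (x : FreeGroup (Fin d)) (a : Fin n) : S θ 1 x a = 0 := by
  simp [S]

theorem S_inv (h : Rat θ hd) {b : BraidGroup d} (hb : b ∈ LB θ)
    (x : FreeGroup (Fin d)) (a : Fin n) : S θ b⁻¹ x a = - S θ b x a := by
  have h1 := S_mul h ((LB θ).inv_mem hb) hb x a
  rw [inv_mul_cancel, S_one] at h1
  exact eq_neg_of_add_eq_zero_left h1.symm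

theorem S_full (x : FreeGroup (Fin d)) (a : Fin n) (h1 : θ (pr hd d) = 1) :
    S θ (rot d ^ d) x a = bd θ hd (θ x a) - bd θ hd a := by
  have h2 : θ (pr hd d)⁻¹ = 1 := by rw [map_inv, h1, inv_one]
  rw [S, artin_full hd, lam_mul, lam_mul, lam_inv, h2, Equiv.Perm.one_apply, bd, bd]
  abel

theorem braid_eq (p : Factor d) (x : FreeGroup (Fin d)) : artin d p.braid x =
    artin d p.b (artin d (sig p.i ^ p.kind.expo) (artin d p.b⁻¹ x)) := by
  rw [Factor.braid, map_mul, map_mul, MulAut.mul_apply, MulAut.mul_apply]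

theorem compat_thg {p : Factor d} (hp : p.Compat θ) :
    (⟨1, p.i, p.kind⟩ : Factor d).Compat (thg θ p.b) := by
  have e : ∀ y : FreeGroup (Fin d), artin d 1 y = y := by intro y; simp
  obtain ⟨b, i, K⟩ := p
  cases K <;> simpa only [Factor.Compat, thg_apply, e] using hp

theorem S_local (hs : Simple θ) {p : Factor d} (hp : p.Compat θ) (hk : p.kind ≠ .tangency)
    (x : FreeGroup (Fin d)) (a : Fin n) : S θ p.braid x a = 0 := by
  obtain ⟨L, hL⟩ := exists_L hs p.b
  have h1 := Lam_local (hs.thg p.b) p.i p.kind hk (compat_thg hp) (artin d p.b⁻¹ x)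
  rw [S, braid_eq, hL, lam_eq_of_Lam h1, ← hL, artin_apply_inv, sub_self]

theorem braid_mem (hs : Simple θ) {p : Factor d} (hp : p.Compat θ) : p.braid ∈ LB θ := by
  rw [mem_LB_iff]
  intro x
  rw [braid_eq, ← thg_apply θ p.b]
  have h0 : thg θ p.b (artin d p.b⁻¹ x) = θ x := by rw [thg_apply, artin_apply_inv]
  rw [← h0]
  by_cases hk : p.kind = .tangency
  · have h1 := compat_thg hp
    rw [hk] at h1
    have h2 : thg θ p.b (FreeGroup.of (lo p.i)) = thg θ p.b (FreeGroup.of (hi p.i)) := by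
      have e : ∀ y : FreeGroup (Fin d), artin d 1 y = y := by intro y; simp
      simpa only [Factor.Compat, e] using h1
    rw [hk]
    show thg θ p.b (artin d (sig p.i ^ (1 : ℤ)) _) = _
    rw [zpow_one]
    exact tang_th h2 _
  · exact th_of_Lam (Lam_local (hs.thg p.b) p.i p.kind hk (compat_thg hp) _)

/-! ### The cut of a tangency -/

/-- The sum of the two coordinates of a tangency. -/
def ff (θ : FreeGroup (Fin d) →* Equiv.Perm (Fin n)) (i : Fin (d - 1)) (y : FreeGroup (Fin d))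
    (a : Fin n) : ℤ := lam θ y a (lo i) + lam θ y a (hi i)

theorem ff_mul (i : Fin (d - 1)) (x y : FreeGroup (Fin d)) (a : Fin n) :
    ff θ i (x * y) a = ff θ i y a + ff θ i x (θ y a) := by
  simp only [ff, lam_mul, Pi.add_apply]
  ring

theorem ff_inv (i : Fin (d - 1)) (x : FreeGroup (Fin d)) (a : Fin n) :
    ff θ i x⁻¹ (θ x a) = - ff θ i x a := by
  have h1 := ff_mul (θ := θ) i x⁻¹ x a
  rw [inv_mul_cancel] at h1
  have h2 : ff θ i 1 a = 0 := by simp [ff]
  rw [h2] at h1
  omega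

theorem sgn_lt {i j : Fin n} (h : i < j) : sgn (Equiv.swap i j) i = 1 := by
  have h' : (i : ℕ) < j := h
  rw [sgn, Equiv.swap_apply_left]
  exact Int.sign_eq_one_of_pos (by omega)

theorem sgn_gt {i j : Fin n} (h : i < j) : sgn (Equiv.swap i j) j = -1 := by
  have h' : (i : ℕ) < j := h
  rw [sgn, Equiv.swap_apply_right]
  exact Int.sign_eq_neg_one_of_neg (by omega)

theorem isSwap_lt {t : Equiv.Perm (Fin n)} (ht : t.IsSwap) :
    ∃ i j, i < j ∧ t = Equiv.swap i j := by
  obtain ⟨i, j, hij, rfl⟩ := ht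
  rcases lt_or_gt_of_ne hij with h | h
  · exact ⟨i, j, h, rfl⟩
  · exact ⟨j, i, h, Equiv.swap_comm _ _⟩

/-- The potential of a tangency takes two values. -/
theorem exists_pot (hs : Simple θ) (htr : ∀ a b, ∃ x, θ x a = b) (i : Fin (d - 1))
    (heq : θ (FreeGroup.of (lo i)) = θ (FreeGroup.of (hi i)))
    {i₀ j₀ : Fin n} (hij : i₀ < j₀) (ht : θ (FreeGroup.of (lo i)) = Equiv.swap i₀ j₀)
    (hcl : ∀ y a, θ y a = a → ff θ i y a = 0) :
    ∃ A : Finset (Fin n), i₀ ∈ A ∧ j₀ ∉ A ∧ ∀ y a, ff θ i y a =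
      (if a ∈ A then 1 else 0) - (if θ y a ∈ A then 1 else 0) := by
  choose Y hY using htr i₀
  let p : Fin n → ℤ := fun a => ff θ i (Y a) i₀
  have h1 : ∀ y a, ff θ i y a = p (θ y a) - p a := by
    intro y a
    have h2 : θ ((Y (θ y a))⁻¹ * (y * Y a)) i₀ = i₀ := by
      rw [map_mul, map_mul, Equiv.Perm.mul_apply, Equiv.Perm.mul_apply, hY, map_inv]
      exact (Equiv.symm_apply_eq _).2 (hY _).symm
    have h3 := hcl _ _ h2
    rw [ff_mul, ff_mul, map_mul, Equiv.Perm.mul_apply, hY] at h3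
    have h4 := ff_inv (θ := θ) i (Y (θ y a)) i₀
    rw [hY] at h4
    rw [h4] at h3
    show _ = ff θ i (Y (θ y a)) i₀ - ff θ i (Y a) i₀
    omega
  have hp0 : p i₀ = 0 := hcl _ _ (hY i₀)
  have hof : ∀ k a, ff θ i (FreeGroup.of k) a =
      if k = lo i ∨ k = hi i then sgn (Equiv.swap i₀ j₀) a else 0 := by
    intro k a
    have hne : lo i ≠ hi i := (hi_ne_lo i).symm
    rw [ff, lam_of]
    by_cases h2 : k = lo i
    · subst h2
      rw [if_pos (Or.inl rfl), ht]
      simp [ev, hne]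
    · by_cases h3 : k = hi i
      · subst h3
        rw [if_pos (Or.inr rfl), ← heq, ht]
        simp [ev, hne]
      · rw [if_neg (by tauto)]
        simp [ev, Ne.symm h2, Ne.symm h3]
  have hp1 : p j₀ = 1 := by
    have h2 := h1 (FreeGroup.of (lo i)) i₀
    rw [hof, if_pos (Or.inl rfl), ht, Equiv.swap_apply_left, sgn_lt hij, hp0] at h2
    omega
  have hstep : ∀ k a, (p a = 0 ∨ p a = 1) → (p (θ (FreeGroup.of k) a) = 0 ∨
      p (θ (FreeGroup.of k) a) = 1) := by
    intro k a ha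
    have h2 := h1 (FreeGroup.of k) a
    rw [hof] at h2
    by_cases h3 : k = lo i ∨ k = hi i
    · rw [if_pos h3] at h2
      have h4 : θ (FreeGroup.of k) = Equiv.swap i₀ j₀ := by
        rcases h3 with h3 | h3
        · rw [h3, ht]
        · rw [h3, ← heq, ht]
      rw [h4] at h2 ⊢
      by_cases h5 : a = i₀
      · right; rw [h5, Equiv.swap_apply_left, hp1]
      · by_cases h6 : a = j₀
        · left; rw [h6, Equiv.swap_apply_right, hp0]
        · rw [Equiv.swap_apply_of_ne_of_ne h5 h6]; exact ha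
    · rw [if_neg h3] at h2
      have h5 : p (θ (FreeGroup.of k) a) = p a := by omega
      rw [h5]; exact ha
  have hall : ∀ y a, (p a = 0 ∨ p a = 1) → (p (θ y a) = 0 ∨ p (θ y a) = 1) := by
    intro y
    induction y using FreeGroup.induction_on with
    | C1 => intro a ha; simpa using ha
    | of k => exact hstep k
    | inv_of k hk =>
      intro a ha
      have h2 : θ (FreeGroup.of k)⁻¹ = θ (FreeGroup.of k) := by
        rw [map_inv, inv_eq_iff_mul_eq_one]
        exact Helper496.BraidFact.isSwap_sq (hs k)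
      rw [h2]; exact hstep k a ha
    | mul x y hx hy =>
      intro a ha
      rw [map_mul, Equiv.Perm.mul_apply]
      exact hx _ (hy _ ha)
  have hval : ∀ a, p a = 0 ∨ p a = 1 := by
    intro a
    have h2 := hall (Y a) i₀ (Or.inl hp0)
    rwa [hY] at h2
  refine ⟨Finset.univ.filter (fun a => p a = 0), ?_, ?_, ?_⟩
  · simp [hp0]
  · simp [hp1]
  · intro y a
    rw [h1]
    simp only [Finset.mem_filter, Finset.mem_univ, true_and]
    rcases hval a with h2 | h2 <;> rcases hval (θ y a) with h3 | h3 <;> simp [h2, h3]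

theorem sum_sgn {t : Equiv.Perm (Fin n)} (ht : t.IsSwap) {A : Finset (Fin n)}
    (hA : ∀ a, a ∈ A ↔ t a ∈ A) : ∑ a ∈ A, sgn t a = 0 := by
  apply Finset.sum_involution (fun a _ => t a)
  · intro a _
    rw [sgn_swap ht]; ring
  · intro a _ h1 h2
    exact h1 (sgn_of_fix h2)
  · intro a ha
    exact (hA a).1 ha
  · intro a _
    exact isSwap_invol ht a

/-- Words which do not meet the two branch points do not meet the cut. -/
theorem sum_word (hs : Simple θ) {i : Fin (d - 1)} {A : Finset (Fin n)}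
    (hA : ∀ y a, ff θ i y a = (if a ∈ A then 1 else 0) - (if θ y a ∈ A then 1 else 0))
    (L : List (Fin d)) (hL : ∀ k ∈ L, k ≠ lo i ∧ k ≠ hi i) :
    (∀ a, a ∈ A ↔ θ (L.map FreeGroup.of).prod a ∈ A) ∧
    ∑ a ∈ A, lam θ (L.map FreeGroup.of).prod a = 0 := by
  induction L with
  | nil => simp
  | cons k L ih =>
    obtain ⟨ih1, ih2⟩ := ih (fun k hk => hL k (List.mem_cons_of_mem _ hk))
    have hk := hL k List.mem_cons_self
    have h1 : ∀ a, a ∈ A ↔ θ (FreeGroup.of k) a ∈ A := by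
      intro a
      have h2 := hA (FreeGroup.of k) a
      have h3 : ff θ i (FreeGroup.of k) a = 0 := by
        rw [ff, lam_of]
        simp [ev, Ne.symm hk.1, Ne.symm hk.2]
      rw [h3] at h2
      clear hL ih ih1 ih2
      by_cases h4 : a ∈ A <;> by_cases h5 : θ (FreeGroup.of k) a ∈ A <;> simp [h4, h5] at h2 ⊢
    rw [List.map_cons, List.prod_cons]
    constructor
    · intro a
      rw [map_mul, Equiv.Perm.mul_apply, ← h1, ← ih1]
    · simp only [lam_mul]
      rw [Finset.sum_add_distrib, ih2, zero_add]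
      rw [Finset.sum_equiv (θ (L.map FreeGroup.of).prod) (s := A) (t := A)
        (f := fun a => lam θ (FreeGroup.of k) (θ (L.map FreeGroup.of).prod a))
        (g := fun a => lam θ (FreeGroup.of k) a) ih1 (fun a _ => rfl)]
      simp only [lam_of]
      rw [← Finset.sum_smul, sum_sgn (hs k) h1, zero_smul]

/-- The loop at infinity, lifted to the sheets of the cut. -/
theorem sum_pr (hs : Simple θ) (hd : 0 < d) {i : Fin (d - 1)}
    (heq : θ (FreeGroup.of (lo i)) = θ (FreeGroup.of (hi i)))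
    {i₀ j₀ : Fin n} (hij : i₀ < j₀) (ht : θ (FreeGroup.of (lo i)) = Equiv.swap i₀ j₀)
    {A : Finset (Fin n)} (hi₀ : i₀ ∈ A) (hj₀ : j₀ ∉ A)
    (hA : ∀ y a, ff θ i y a = (if a ∈ A then 1 else 0) - (if θ y a ∈ A then 1 else 0)) :
    ∑ a ∈ A, lam θ (pr hd d) a = ev (hi i) - ev (lo i) := by
  obtain ⟨L, L', h1, h2, h3⟩ := pr_split hd i
  obtain ⟨p1, p2⟩ := sum_word hs hA L h1
  obtain ⟨q1, q2⟩ := sum_word hs hA L' h2
  have hone : θ (FreeGroup.of (lo i) * FreeGroup.of (hi i)) = 1 := by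
    rw [map_mul, ← heq]
    exact Helper496.BraidFact.isSwap_sq (hs (lo i))
  have hsum : ∑ a ∈ A, sgn (Equiv.swap i₀ j₀) a = 1 := by
    rw [Finset.sum_eq_single i₀]
    · exact sgn_lt hij
    · intro b hb hne
      apply sgn_of_fix
      rw [Equiv.swap_apply_of_ne_of_ne hne]
      rintro rfl
      exact hj₀ hb
    · intro h; exact absurd hi₀ h
  have hmid : ∑ a ∈ A, lam θ (FreeGroup.of (lo i) * FreeGroup.of (hi i)) a =
      ev (hi i) - ev (lo i) := by
    have e1 : ∀ a, lam θ (FreeGroup.of (lo i) * FreeGroup.of (hi i)) a =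
        sgn (Equiv.swap i₀ j₀) a • (ev (hi i) - ev (lo i)) := by
      intro a
      rw [lam_mul, lam_of, lam_of, ← heq, sgn_swap (hs (lo i)), ht]
      module
    simp only [e1]
    rw [← Finset.sum_smul, hsum, one_smul]
  rw [h3]
  simp only [lam_mul θ (_ * _) _, lam_mul θ ((L.map FreeGroup.of).prod) _]
  rw [Finset.sum_add_distrib, Finset.sum_add_distrib, q2, zero_add]
  rw [Finset.sum_equiv (θ (L'.map FreeGroup.of).prod) (s := A) (t := A)
    (f := fun a => lam θ (FreeGroup.of (lo i) * FreeGroup.of (hi i))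
      (θ (L'.map FreeGroup.of).prod a))
    (g := fun a => lam θ (FreeGroup.of (lo i) * FreeGroup.of (hi i)) a) q1 (fun a _ => rfl), hmid]
  rw [Finset.sum_equiv (θ (L'.map FreeGroup.of).prod) (s := A) (t := A)
    (f := fun a => lam θ (L.map FreeGroup.of).prod (θ (FreeGroup.of (lo i) * FreeGroup.of (hi i))
      (θ (L'.map FreeGroup.of).prod a)))
    (g := fun a => lam θ (L.map FreeGroup.of).prod a) q1 (fun a _ => by rw [hone]; rfl), p2,
    add_zero]

/-- The linear maps of a braid and of its inverse. -/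
theorem L_inv (hs : Simple θ) (g : BraidGroup d) {L : (Fin d → ℤ) →ₗ[ℤ] (Fin d → ℤ)}
    (hL : ∀ x a, lam θ (artin d g x) a = L (lam (thg θ g) x a)) :
    ∃ L' : (Fin d → ℤ) →ₗ[ℤ] (Fin d → ℤ), ∀ k, L' (L (ev k)) = ev k := by
  obtain ⟨L', hL'⟩ := exists_L (hs.thg g) g⁻¹
  have e : thg (thg θ g) g⁻¹ = θ := by
    ext1 k
    rw [thg_apply, thg_apply, artin_apply_inv]
  rw [e] at hL'
  refine ⟨L', fun k => ?_⟩
  obtain ⟨i, j, hij, ht⟩ := isSwap_lt (hs.thg g k)
  have h1 := hL' (artin d g (FreeGroup.of k)) i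
  rw [artin_inv_apply, hL, lam_of, ht, sgn_lt hij, one_smul] at h1
  exact h1.symm

/-- The variation of a tangency. -/
theorem S_tang (h : Rat θ hd) {p : Factor d} (hp : p.Compat θ) (hk : p.kind = .tangency) :
    ∃ A : Finset (Fin n), ∀ x a, S θ p.braid x a =
      (((if θ x a ∈ A then 1 else 0) - (if a ∈ A then 1 else 0) : ℤ)) • ∑ s ∈ A, bd θ hd s := by
  have hs := h.simple
  have hs' := hs.thg p.b
  have heq : thg θ p.b (FreeGroup.of (lo p.i)) = thg θ p.b (FreeGroup.of (hi p.i)) := by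
    have h1 := hp
    simp only [Factor.Compat, hk] at h1
    exact h1
  obtain ⟨L, hL⟩ := exists_L hs p.b
  obtain ⟨L', hL'⟩ := L_inv hs p.b hL
  obtain ⟨i₀, j₀, hij, ht⟩ := isSwap_lt (hs' (lo p.i))
  have hS : ∀ y a, S θ p.braid (artin d p.b y) a =
      ff (thg θ p.b) p.i y a • L (ev (lo p.i) - ev (hi p.i)) := by
    intro y a
    rw [S, braid_eq, artin_inv_apply, hk]
    show lam θ (artin d p.b (artin d (sig p.i ^ (1 : ℤ)) y)) a - _ = _
    rw [zpow_one, hL, hL, tang_lam hs' heq, map_add, map_smul, ff]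
    abel
  have hc : L (ev (lo p.i) - ev (hi p.i)) ≠ 0 := by
    intro h0
    have h1 := congrArg L' h0
    rw [map_sub, map_sub, hL', hL', map_zero] at h1
    have h2 := congrFun h1 (lo p.i)
    have hne : lo p.i ≠ hi p.i := (hi_ne_lo p.i).symm
    simp [ev, hne] at h2
  have hcl : ∀ y a, thg θ p.b y a = a → ff (thg θ p.b) p.i y a = 0 := by
    intro y a hy
    have h1 := S_closed h (braid_mem hs hp) (x := artin d p.b y) hy
    rw [hS] at h1
    exact (smul_eq_zero.1 h1).resolve_right hc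
  have htr : ∀ a b, ∃ x, thg θ p.b x a = b := by
    intro a b
    obtain ⟨x, hx⟩ := h.trans a b
    exact ⟨artin d p.b⁻¹ x, by rw [thg_apply, artin_apply_inv, hx]⟩
  obtain ⟨A, hi₀, hj₀, hA⟩ := exists_pot hs' htr p.i heq hij ht hcl
  refine ⟨A, fun x a => ?_⟩
  have h1 := hS (artin d p.b⁻¹ x) a
  rw [artin_apply_inv, hA, thg_apply, artin_apply_inv] at h1
  have h2 := sum_pr hs' hd heq hij ht hi₀ hj₀ hA
  have h3 : ∑ s ∈ A, bd θ hd s = - L (ev (lo p.i) - ev (hi p.i)) := by
    rw [← map_neg, neg_sub, ← h2, map_sum]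
    apply Finset.sum_congr rfl
    intro a _
    rw [bd, ← hL, artin_pr]
  rw [h1, h3]
  module

end Pool.Agent.Helper834.Gen
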