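import Pool.Agent.Helper834.Gen.Scroll

/-!
Four sheets.
-/

namespace Pool.Agent.Helper834.Gen

open Pool.Agent.Helper496.BraidFact Pool.Agent.Helper834

variable {n d : ℕ} {θ : FreeGroup (Fin d) →* Equiv.Perm (Fin n)} {hd : 0 < d}
variable {R : Fin n → Fin n → ((Fin d → ℤ) →ₗ[ℤ] ℤ)} {Y : Fin n → Fin n → FreeGroup (Fin d)}

/-- The sum over all pairs among four sheets. -/
def tet (f : Fin n → Fin n → ℤ) (s : Fin 4 → Fin n) : ℤ :=
  f (s 0) (s 1) + f (s 0) (s 2) + f (s 0) (s 3) + f (s 1) (s 2) + f (s 1) (s 3) + f (s 2) (s 3)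

theorem tet_prod (h : Rat θ hd) (s : Fin 4 → Fin n) (F : List (Factor d))
    (hF : ∀ p ∈ F, p.Compat θ) :
    (F.map Factor.braid).prod ∈ LB θ ∧ tet (q θ R Y (F.map Factor.braid).prod) s =
      (F.map (fun p => tet (q θ R Y p.braid) s)).sum := by
  induction F with
  | nil =>
    refine ⟨one_mem _, ?_⟩
    simp [tet, q_one]
  | cons p F ih =>
    obtain ⟨ih1, ih2⟩ := ih (fun p hp => hF p (List.mem_cons_of_mem _ hp))
    have hp := braid_mem h.simple (hF p List.mem_cons_self)
    simp only [List.map_cons, List.prod_cons, List.sum_cons]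
    refine ⟨mul_mem hp ih1, ?_⟩
    rw [← ih2]
    simp only [tet, q_mul h hp ih1]
    ring

theorem tet_cases (c : Choices θ hd R Y) {b : BraidGroup d} {A : Finset (Fin n)}
    (hA : ∀ x a, S θ b x a = (chi A (θ x a) - chi A a) • ∑ s ∈ A, bd θ hd s)
    (s : Fin 4 → Fin n) : (tet (q θ R Y b) s = 0 ∨ tet (q θ R Y b) s = 3 ∨
      tet (q θ R Y b) s = 4) ∧
    (tet (q θ R Y b) s ≠ 4 → q θ R Y b (s 0) (s 1) + q θ R Y b (s 2) (s 3) -
      q θ R Y b (s 0) (s 2) - q θ R Y b (s 1) (s 3) = 0) ∧
    (tet (q θ R Y b) s ≠ 3 → q θ R Y b (s 0) (s 1) - q θ R Y b (s 2) (s 3) = 0) := by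
  simp only [tet, q_cut c hA]
  rcases chi_cases A (s 0) with h0 | h0 <;> rcases chi_cases A (s 1) with h1 | h1 <;>
  rcases chi_cases A (s 2) with h2 | h2 <;> rcases chi_cases A (s 3) with h3 | h3 <;>
  rw [h0, h1, h2, h3] <;> norm_num

theorem sum_three_four (L : List ℤ) (h : ∀ x ∈ L, x = 0 ∨ x = 3 ∨ x = 4) :
    L.sum = 3 * (L.count 3 : ℤ) + 4 * (L.count 4 : ℤ) := by
  induction L with
  | nil => simp
  | cons x L ih =>
    have ih' := ih (fun y hy => h y (List.mem_cons_of_mem _ hy))
    rw [List.sum_cons, ih', List.count_cons, List.count_cons]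
    rcases h x List.mem_cons_self with hx | hx | hx <;> rw [hx] <;> norm_num <;> ring

/-- All tangencies split off one sheet, or all split the four sheets into pairs. -/
theorem tet_alt (X : Covering n d 1) (h : Rat X.θ hd) (c : Choices X.θ hd R Y)
    (s : Fin 4 → Fin n) (hs : Function.Injective s) :
    (∀ p ∈ X.F, tet (q X.θ R Y p.braid) s ≠ 4) ∨ (∀ p ∈ X.F, tet (q X.θ R Y p.braid) s ≠ 3) := by
  have h1 := (tet_prod (R := R) (Y := Y) h s X.F X.compatible).2
  have h2 : tet (q X.θ R Y (X.F.map Factor.braid).prod) s = 12 := by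
    rw [X.factorization, mul_one, tet]
    have e : ∀ u v : Fin 4, u ≠ v → q X.θ R Y (rot d ^ d) (s u) (s v) = 2 := by
      intro u v huv
      exact q_full c (closed_pr hd) (fun h => huv (hs h))
    rw [e 0 1 (by decide), e 0 2 (by decide), e 0 3 (by decide), e 1 2 (by decide),
      e 1 3 (by decide), e 2 3 (by decide)]
    norm_num
  rw [h2] at h1
  rw [sum_three_four] at h1
  · by_contra hcon
    push Not at hcon
    obtain ⟨⟨p, hp, hp4⟩, ⟨p', hp', hp3⟩⟩ := hcon
    have c4 : 0 < (X.F.map (fun p => tet (q X.θ R Y p.braid) s)).count 4 := by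
      rw [List.count_pos_iff, List.mem_map]
      exact ⟨p, hp, hp4⟩
    have c3 : 0 < (X.F.map (fun p => tet (q X.θ R Y p.braid) s)).count 3 := by
      rw [List.count_pos_iff, List.mem_map]
      exact ⟨p', hp', hp3⟩
    omega
  · intro x hx
    rw [List.mem_map] at hx
    obtain ⟨p, hp, rfl⟩ := hx
    obtain ⟨A, hA⟩ := exists_cut h (X.compatible p hp)
    exact (tet_cases c hA s).1

/-- A function of liftable braids which vanishes on the factors vanishes on the group they
generate. -/
theorem comb_closure (X : Covering n d 1) (h : Rat X.θ hd) (C : (Fin n → Fin n → ℤ) → ℤ)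
    (hC0 : C (fun _ _ => 0) = 0) (hCadd : ∀ f g, C (fun i j => f i j + g i j) = C f + C g)
    (hCneg : ∀ f, C (fun i j => - f i j) = - C f)
    (hF : ∀ p ∈ X.F, C (q X.θ R Y p.braid) = 0) {b : BraidGroup d}
    (hb : b ∈ Subgroup.closure {b | ∃ p ∈ X.F, p.braid = b}) :
    b ∈ LB X.θ ∧ C (q X.θ R Y b) = 0 := by
  induction hb using Subgroup.closure_induction with
  | mem z hz =>
    obtain ⟨p, hp, rfl⟩ := hz
    exact ⟨braid_mem h.simple (X.compatible p hp), hF p hp⟩
  | one =>
    refine ⟨one_mem _, ?_⟩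
    have e : q X.θ R Y (1 : BraidGroup d) = fun _ _ => 0 := by
      funext i j; exact q_one i j
    rw [e, hC0]
  | mul a b _ _ ha hb =>
    refine ⟨mul_mem ha.1 hb.1, ?_⟩
    have e : q X.θ R Y (a * b) = fun i j => q X.θ R Y a i j + q X.θ R Y b i j := by
      funext i j; exact q_mul h ha.1 hb.1 i j
    rw [e, hCadd, ha.2, hb.2, add_zero]
  | inv a _ ha =>
    refine ⟨inv_mem ha.1, ?_⟩
    have e : q X.θ R Y a⁻¹ = fun i j => - q X.θ R Y a i j := by
      funext i j; exact q_inv h ha.1 i j
    rw [e, hCneg, ha.2, neg_zero]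

/-- The braids of the special points generate a proper subgroup: four sheets. -/
theorem proper_four {N : ℕ} (hN : 3 = N) (X : Covering (N + 1) (2 * N) 1) (hX : X.θ = std N) :
    Subgroup.closure {b | ∃ p ∈ X.F, p.braid = b} < LB X.θ := by
  have hd : 0 < 2 * N := by omega
  have h := rat_std X hX hd
  have h' : Rat X.θ hd := hX ▸ h
  choose Y hY using X.connected
  have c := choices_std hX hd hY
  have hY' : ∀ i j, std N (Y i j) i = j := hX ▸ hY
  let s : Fin 4 → Fin (N + 1) := fun u => ⟨u, by omega⟩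
  have hs : Function.Injective s := by
    intro u v huv
    have h1 : ((s u : Fin (N + 1)) : ℕ) = (s v : Fin (N + 1)) := congrArg Fin.val huv
    exact Fin.ext h1
  have hle : Subgroup.closure {b | ∃ p ∈ X.F, p.braid = b} ≤ LB X.θ := by
    rw [Subgroup.closure_le]
    rintro b ⟨p, hp, rfl⟩
    exact braid_mem h'.simple (X.compatible p hp)
  refine lt_of_le_of_ne hle ?_
  intro heq
  have cut := fun p hp => exists_cut h' (X.compatible p hp)
  rcases tet_alt X h' c s hs with halt | halt
  · have hmem : sig (sg (show 1 < N by omega)) ∈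
        Subgroup.closure {b | ∃ p ∈ X.F, p.braid = b} := by
      rw [heq, hX]
      exact std_sig_mem _
    have key := comb_closure (R := fun i j => RR N j - RR N i) (Y := Y) X h'
      (fun f => f (s 0) (s 1) + f (s 2) (s 3) - f (s 0) (s 2) - f (s 1) (s 3)) (by norm_num)
      (fun f g => by ring) (fun f => by ring)
      (fun p hp => by
        obtain ⟨A, hA⟩ := cut p hp
        exact (tet_cases c hA s).2.1 (halt p hp)) hmem
    have h1 := key.2
    rw [hX] at h1
    simp only [std_q_sig (show 1 < N by omega) h.simple hY'] at h1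
    simp [lt', s] at h1
  · have hmem : sig (sg (show 0 < N by omega)) ∈
        Subgroup.closure {b | ∃ p ∈ X.F, p.braid = b} := by
      rw [heq, hX]
      exact std_sig_mem _
    have key := comb_closure (R := fun i j => RR N j - RR N i) (Y := Y) X h'
      (fun f => f (s 0) (s 1) - f (s 2) (s 3)) (by norm_num) (fun f g => by ring)
      (fun f => by ring)
      (fun p hp => by
        obtain ⟨A, hA⟩ := cut p hp
        exact (tet_cases c hA s).2.2 (halt p hp)) hmem
    have h1 := key.2
    rw [hX] at h1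
    simp only [std_q_sig (show 0 < N by omega) h.simple hY'] at h1
    simp [lt', s] at h1

/-- The braids of the special points generate a proper subgroup. -/
theorem proper_all {N : ℕ} (hN : 3 ≤ N) (X : Covering (N + 1) (2 * N) 1) (hX : X.θ = std N) :
    Subgroup.closure {b | ∃ p ∈ X.F, p.braid = b} < LB X.θ := by
  rcases Nat.lt_or_ge N 4 with h | h
  · exact proper_four (by omega) X hX
  · exact proper_std h X hX

end Pool.Agent.Helper834.Gen
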