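import Pool.Agent.Helper834.Gen.Local

/-!
The loop at infinity, its invariance, and the full twist.
-/

namespace Pool.Agent.Helper834.Gen

open Pool.Agent.Helper496.BraidFact Pool.Agent.Helper834

variable {N d : ℕ}

theorem map_finRange_eq {α : Type} {n : ℕ} (f : Fin n → α) (g : ℕ → α)
    (h : ∀ i : Fin n, f i = g i) : (List.finRange n).map f = (List.range n).map g := by
  apply List.ext_getElem (by simp)
  intro i h1 h2
  simp [h]

/-- The generators, indexed periodically by the natural numbers. -/
def gx (hd : 0 < d) (j : ℕ) : FreeGroup (Fin d) := FreeGroup.of ⟨j % d, Nat.mod_lt _ hd⟩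

theorem gx_of (hd : 0 < d) {j : ℕ} (hj : j < d) : gx hd j = FreeGroup.of ⟨j, hj⟩ := by
  rw [gx]
  congr 1
  exact Fin.ext (Nat.mod_eq_of_lt hj)

/-- The partial products of the generators. -/
def pr (hd : 0 < d) (n : ℕ) : FreeGroup (Fin d) := ((List.range n).map (gx hd)).prod

theorem pr_succ (hd : 0 < d) (n : ℕ) : pr hd (n + 1) = pr hd n * gx hd n := by
  rw [pr, pr, List.range_succ, List.map_append, List.prod_append]
  simp

/-- The standard half-twists, indexed by the natural numbers. -/
def sigN (d : ℕ) (j : ℕ) : BraidGroup d := if h : j < d - 1 then sig ⟨j, h⟩ else 1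

/-- The partial products of the half-twists. -/
def rp (d n : ℕ) : BraidGroup d := ((List.range n).map (sigN d)).prod

theorem rp_succ (d n : ℕ) : rp d (n + 1) = rp d n * sigN d n := by
  rw [rp, rp, List.range_succ, List.map_append, List.prod_append]
  simp

theorem rot_eq (d : ℕ) : rot d = rp d (d - 1) := by
  rw [rot, rp, map_finRange_eq sig (sigN d)]
  intro i
  rw [sigN, dif_pos i.2]

theorem artin_sigN_lo {j : ℕ} (hd : 0 < d) (hj : j < d - 1) :
    artin d (sigN d j) (gx hd j) = gx hd j * gx hd (j + 1) * (gx hd j)⁻¹ := by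
  rw [sigN, dif_pos hj, artin_sig, artinAut_apply, gx_of hd (show j < d by omega),
    gx_of hd (show j + 1 < d by omega)]
  exact artinFun_lo ⟨j, hj⟩

theorem artin_sigN_hi {j : ℕ} (hd : 0 < d) (hj : j < d - 1) :
    artin d (sigN d j) (gx hd (j + 1)) = gx hd j := by
  rw [sigN, dif_pos hj, artin_sig, artinAut_apply, gx_of hd (show j < d by omega),
    gx_of hd (show j + 1 < d by omega)]
  exact artinFun_hi ⟨j, hj⟩

theorem artin_sigN_ne {j k : ℕ} (hd : 0 < d) (hj : j < d - 1) (hk : k < d) (h1 : k ≠ j)
    (h2 : k ≠ j + 1) : artin d (sigN d j) (gx hd k) = gx hd k := by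
  rw [sigN, dif_pos hj, artin_sig, artinAut_apply, gx_of hd hk]
  apply artinFun_ne
  · intro h
    exact h1 (congrArg Fin.val h)
  · intro h
    exact h2 (congrArg Fin.val h)

theorem artin_rp (hd : 0 < d) (n : ℕ) (hn : n ≤ d - 1) (k : ℕ) (hk : k < d) :
    artin d (rp d n) (gx hd k) =
      if k < n then gx hd 0 * gx hd (k + 1) * (gx hd 0)⁻¹
      else if k = n then gx hd 0 else gx hd k := by
  induction n generalizing k with
  | zero =>
    rw [rp]
    simp only [List.range_zero, List.map_nil, List.prod_nil, map_one, MulAut.one_apply,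
      Nat.not_lt_zero, if_false]
    split_ifs with h
    · rw [h]
    · rfl
  | succ n ih =>
    have ih' := ih (by omega)
    rw [rp_succ, map_mul, MulAut.mul_apply]
    by_cases h1 : k = n
    · subst h1
      rw [artin_sigN_lo hd (by omega), map_mul, map_mul, map_inv, ih' k hk,
        ih' (k + 1) (by omega), if_neg (by omega), if_pos rfl, if_neg (by omega),
        if_neg (by omega), if_pos (by omega)]
    · by_cases h2 : k = n + 1
      · subst h2
        rw [artin_sigN_hi hd (by omega), ih' n (by omega), if_neg (by omega), if_pos rfl,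
          if_neg (by omega), if_pos rfl]
      · rw [artin_sigN_ne hd (by omega) hk h1 h2, ih' k hk]
        by_cases h3 : k < n
        · rw [if_pos h3, if_pos (by omega)]
        · rw [if_neg h3, if_neg h1, if_neg (by omega), if_neg h2]

theorem gx_add (hd : 0 < d) (j : ℕ) : gx hd (j + d) = gx hd j := by
  rw [gx, gx]
  congr 1
  apply Fin.ext
  simp

theorem gx_mod (hd : 0 < d) (j : ℕ) : gx hd (j % d) = gx hd j := by
  rw [gx, gx]
  congr 1
  apply Fin.ext
  simp

theorem artin_rot (hd : 0 < d) (j : ℕ) :
    artin d (rot d) (gx hd j) = gx hd 0 * gx hd (j + 1) * (gx hd 0)⁻¹ := by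
  rw [rot_eq, ← gx_mod hd j, artin_rp hd (d - 1) le_rfl (j % d) (Nat.mod_lt _ hd)]
  have h0 : gx hd (j % d + 1) = gx hd (j + 1) := by
    rw [gx, gx]
    congr 1
    apply Fin.ext
    simp
  by_cases h : j % d < d - 1
  · rw [if_pos h, h0]
  · have h1 := Nat.mod_lt j hd
    have h2 : j % d = d - 1 := by omega
    rw [if_neg h, if_pos h2, ← h0, h2, show d - 1 + 1 = 0 + d by omega, gx_add]
    group

theorem artin_rot_pow (hd : 0 < d) (n j : ℕ) :
    artin d (rot d ^ n) (gx hd j) = pr hd n * gx hd (j + n) * (pr hd n)⁻¹ := by
  induction n generalizing j with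
  | zero => simp [pr]
  | succ n ih =>
    rw [pow_succ, map_mul, MulAut.mul_apply, artin_rot, map_mul, map_mul, map_inv, ih, ih,
      pr_succ, show 0 + n = n by omega, show j + 1 + n = j + (n + 1) by omega]
    group

/-- The full twist acts by conjugation by the loop at infinity. -/
theorem artin_full (hd : 0 < d) (x : FreeGroup (Fin d)) :
    artin d (rot d ^ d) x = pr hd d * x * (pr hd d)⁻¹ := by
  have key : (artin d (rot d ^ d)).toMonoidHom = (MulAut.conj (pr hd d)).toMonoidHom := by
    ext1 k
    show artin d (rot d ^ d) (FreeGroup.of k) = pr hd d * FreeGroup.of k * (pr hd d)⁻¹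
    have h := artin_rot_pow hd d k
    rw [gx_add, gx_of hd k.2] at h
    exact h
  exact DFunLike.congr_fun key x

/-- The splitting of the loop at infinity. -/
theorem pr_split (hd : 0 < d) (i : Fin (d - 1)) : ∃ L L' : List (Fin d),
    (∀ k ∈ L, k ≠ lo i ∧ k ≠ hi i) ∧ (∀ k ∈ L', k ≠ lo i ∧ k ≠ hi i) ∧
    pr hd d = (L.map FreeGroup.of).prod * (FreeGroup.of (lo i) * FreeGroup.of (hi i)) *
      (L'.map FreeGroup.of).prod := by
  have hi' := i.2
  have h1 : List.range d = List.range i ++ ([(i : ℕ), (i : ℕ) + 1] ++
      (List.range (d - (i + 2))).map (fun j => (i : ℕ) + 2 + j)) := by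
    conv_lhs => rw [show d = (i : ℕ) + (2 + (d - (i + 2))) by omega]
    rw [List.range_add, List.range_add, List.map_append, List.map_map]
    congr 2
    apply List.map_congr_left
    intro j _
    simp only [Function.comp_apply]
    omega
  let f : ℕ → Fin d := fun j => ⟨j % d, Nat.mod_lt _ hd⟩
  refine ⟨(List.range i).map f, ((List.range (d - (i + 2))).map (fun j => (i : ℕ) + 2 + j)).map f,
    ?_, ?_, ?_⟩
  · intro k hk
    rw [List.mem_map] at hk
    obtain ⟨j, hj, rfl⟩ := hk
    rw [List.mem_range] at hj
    have e : j % d = j := Nat.mod_eq_of_lt (by omega)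
    constructor
    · intro h
      have := congrArg Fin.val h
      simp only [f, lo] at this
      omega
    · intro h
      have := congrArg Fin.val h
      simp only [f, hi] at this
      omega
  · intro k hk
    rw [List.map_map, List.mem_map] at hk
    obtain ⟨j, hj, rfl⟩ := hk
    rw [List.mem_range] at hj
    have e : (i + 2 + j) % d = i + 2 + j := Nat.mod_eq_of_lt (by omega)
    constructor
    · intro h
      have := congrArg Fin.val h
      simp only [f, lo, Function.comp_apply] at this
      omega
    · intro h
      have := congrArg Fin.val h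
      simp only [f, hi, Function.comp_apply] at this
      omega
  · rw [pr, h1, List.map_append, List.map_append, List.prod_append, List.prod_append,
      List.map_map, List.map_map, mul_assoc]
    have e1 : gx hd i = FreeGroup.of (lo i) := gx_of hd (show (i : ℕ) < d by omega)
    have e2 : gx hd (i + 1) = FreeGroup.of (hi i) := gx_of hd (show (i : ℕ) + 1 < d by omega)
    rw [List.map_cons, List.map_cons, List.map_nil, List.prod_cons, List.prod_cons,
      List.prod_nil, mul_one, e1, e2, List.map_map, List.map_map]
    rfl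

/-- The loop at infinity is invariant. -/
theorem artin_pr (hd : 0 < d) (g : BraidGroup d) : artin d g (pr hd d) = pr hd d := by
  have hb : g ∈ Subgroup.closure (Set.range (PresentedGroup.of (rels := braidRels d))) := by
    rw [PresentedGroup.closure_range_of]; trivial
  induction hb using Subgroup.closure_induction with
  | mem z hz =>
    obtain ⟨i, rfl⟩ := hz
    have h0 : (PresentedGroup.of i : BraidGroup d) = sig i := rfl
    rw [h0]
    obtain ⟨L, L', h1, h2, h3⟩ := pr_split hd i
    have key : ∀ L : List (Fin d), (∀ k ∈ L, k ≠ lo i ∧ k ≠ hi i) →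
        artin d (sig i) (L.map FreeGroup.of).prod = (L.map FreeGroup.of).prod := by
      intro L hL
      induction L with
      | nil => simp
      | cons k L ih =>
        rw [List.map_cons, List.prod_cons, map_mul,
          ih (fun k hk => hL k (List.mem_cons_of_mem _ hk)), artin_sig, artinAut_apply,
          artinFun_ne i (hL k List.mem_cons_self).1 (hL k List.mem_cons_self).2]
    rw [h3, map_mul, map_mul, key L h1, key L' h2, map_mul, artin_sig, artinAut_apply,
      artinAut_apply, artinFun_lo, artinFun_hi]
    group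
  | one => simp
  | mul a b _ _ ha hb => rw [map_mul, MulAut.mul_apply, hb, ha]
  | inv a _ ha =>
    conv_lhs => rw [← ha]
    exact artin_inv_apply a _

end Pool.Agent.Helper834.Gen
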