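import Pool.Agent.Helper834.Model

/-!
Lifting paths to the covering surface: the crossed homomorphism with values in the relative
homology of the covering surface.
-/

namespace Pool.Agent.Helper834.Gen

open Pool.Agent.Helper496.BraidFact Pool.Agent.Helper834

variable {N d : ℕ}

/-- The direction in which a permutation moves a point. -/
def sgn (t : Equiv.Perm (Fin N)) (a : Fin N) : ℤ := Int.sign (((t a : ℕ) : ℤ) - ((a : ℕ) : ℤ))

/-- The lift of a permutation by a vector. -/
def stp {M : Type} [AddCommGroup M] (t : Equiv.Perm (Fin N)) (u : M) :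
    Equiv.Perm (Fin N × M) where
  toFun p := (t p.1, p.2 + sgn t p.1 • u)
  invFun p := (t.symm p.1, p.2 - sgn t (t.symm p.1) • u)
  left_inv p := by simp
  right_inv p := by simp

theorem stp_apply {M : Type} [AddCommGroup M] (t : Equiv.Perm (Fin N)) (u : M) (a : Fin N)
    (v : M) : stp t u (a, v) = (t a, v + sgn t a • u) := rfl

/-- The basis vector. -/
def ev (k : Fin d) : Fin d → ℤ := Pi.single k 1

/-- The action of the free group on the covering surface, unwrapped. -/
def Lam (θ : FreeGroup (Fin d) →* Equiv.Perm (Fin N)) :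
    FreeGroup (Fin d) →* Equiv.Perm (Fin N × (Fin d → ℤ)) :=
  FreeGroup.lift (fun k => stp (θ (FreeGroup.of k)) (ev k))

theorem Lam_of (θ : FreeGroup (Fin d) →* Equiv.Perm (Fin N)) (k : Fin d) :
    Lam θ (FreeGroup.of k) = stp (θ (FreeGroup.of k)) (ev k) := by simp [Lam]

/-- The class of the lift, starting at `a`, of the path `x`. -/
def lam (θ : FreeGroup (Fin d) →* Equiv.Perm (Fin N)) (x : FreeGroup (Fin d)) (a : Fin N) :
    Fin d → ℤ := (Lam θ x (a, 0)).2

theorem Lam_apply (θ : FreeGroup (Fin d) →* Equiv.Perm (Fin N)) (x : FreeGroup (Fin d)) :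
    ∀ (a : Fin N) (v : Fin d → ℤ), Lam θ x (a, v) = (θ x a, v + lam θ x a) := by
  induction x using FreeGroup.induction_on with
  | C1 => intro a v; simp [lam]
  | of k => intro a v; simp [lam, Lam_of, stp_apply]
  | inv_of k h =>
    intro a v
    have h1 : ∀ a v, Lam θ (FreeGroup.of k)⁻¹ (a, v) =
        ((θ (FreeGroup.of k))⁻¹ a, v - sgn (θ (FreeGroup.of k)) ((θ (FreeGroup.of k))⁻¹ a) • ev k) := by
      intro a v
      rw [map_inv, Lam_of]
      rfl
    rw [lam, h1, h1, map_inv]
    simp [sub_eq_add_neg]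
  | mul x y hx hy =>
    intro a v
    have h1 : ∀ a v, Lam θ (x * y) (a, v) = (θ x (θ y a), v + lam θ y a + lam θ x (θ y a)) := by
      intro a v
      rw [map_mul, Equiv.Perm.mul_apply, hy, hx]
    rw [lam, h1, h1, map_mul]
    simp [add_assoc]

theorem lam_mul (θ : FreeGroup (Fin d) →* Equiv.Perm (Fin N)) (x y : FreeGroup (Fin d))
    (a : Fin N) : lam θ (x * y) a = lam θ y a + lam θ x (θ y a) := by
  have h1 : Lam θ (x * y) (a, 0) = Lam θ x (Lam θ y (a, 0)) := by
    rw [map_mul, Equiv.Perm.mul_apply]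
  rw [Lam_apply, Lam_apply, Lam_apply] at h1
  have h2 := congrArg Prod.snd h1
  simpa using h2

@[simp] theorem lam_one (θ : FreeGroup (Fin d) →* Equiv.Perm (Fin N)) (a : Fin N) :
    lam θ 1 a = 0 := by simp [lam]

theorem lam_of (θ : FreeGroup (Fin d) →* Equiv.Perm (Fin N)) (k : Fin d) (a : Fin N) :
    lam θ (FreeGroup.of k) a = sgn (θ (FreeGroup.of k)) a • ev k := by
  simp [lam, Lam_of, stp_apply]

theorem lam_inv (θ : FreeGroup (Fin d) →* Equiv.Perm (Fin N)) (x : FreeGroup (Fin d))
    (a : Fin N) : lam θ x⁻¹ a = - lam θ x (θ x⁻¹ a) := by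
  have h := lam_mul θ x x⁻¹ a
  rw [mul_inv_cancel, lam_one] at h
  exact eq_neg_of_add_eq_zero_left h.symm

theorem lam_eq_of_Lam {θ : FreeGroup (Fin d) →* Equiv.Perm (Fin N)} {x y : FreeGroup (Fin d)}
    (h : Lam θ x = Lam θ y) (a : Fin N) : lam θ x a = lam θ y a := by
  rw [lam, lam, h]

/-! ### Transpositions -/

theorem sgn_of_fix {t : Equiv.Perm (Fin N)} {a : Fin N} (h : t a = a) : sgn t a = 0 := by
  simp [sgn, h]

theorem isSwap_invol {t : Equiv.Perm (Fin N)} (ht : t.IsSwap) (a : Fin N) : t (t a) = a := by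
  obtain ⟨i, j, -, rfl⟩ := ht
  simp

theorem sgn_swap {t : Equiv.Perm (Fin N)} (ht : t.IsSwap) (a : Fin N) :
    sgn t (t a) = - sgn t a := by
  rw [sgn, sgn, isSwap_invol ht, ← Int.sign_neg]
  congr 1
  ring

theorem stp_sq {M : Type} [AddCommGroup M] {t : Equiv.Perm (Fin N)} (ht : t.IsSwap) (u : M) :
    stp t u * stp t u = 1 := by
  ext1 p
  obtain ⟨a, v⟩ := p
  rw [Equiv.Perm.mul_apply, stp_apply, stp_apply, isSwap_invol ht, sgn_swap ht]
  simp

/-- All standard generators are mapped to transpositions. -/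
def Simple (θ : FreeGroup (Fin d) →* Equiv.Perm (Fin N)) : Prop :=
  ∀ k, (θ (FreeGroup.of k)).IsSwap

/-- The homomorphism `θ ∘ g_*`. -/
def thg (θ : FreeGroup (Fin d) →* Equiv.Perm (Fin N)) (g : BraidGroup d) :
    FreeGroup (Fin d) →* Equiv.Perm (Fin N) := θ.comp (artin d g).toMonoidHom

theorem thg_apply (θ : FreeGroup (Fin d) →* Equiv.Perm (Fin N)) (g : BraidGroup d)
    (x : FreeGroup (Fin d)) : thg θ g x = θ (artin d g x) := rfl

theorem artin_inv_apply (g : BraidGroup d) (x : FreeGroup (Fin d)) :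
    artin d g⁻¹ (artin d g x) = x := by
  rw [← MulAut.mul_apply, ← map_mul, inv_mul_cancel, map_one, MulAut.one_apply]

theorem artin_apply_inv (g : BraidGroup d) (x : FreeGroup (Fin d)) :
    artin d g (artin d g⁻¹ x) = x := by
  rw [← MulAut.mul_apply, ← map_mul, mul_inv_cancel, map_one, MulAut.one_apply]

/-- Every element of the braid group maps the generators to conjugates of generators. -/
def GenConj (φ : MulAut (FreeGroup (Fin d))) : Prop :=
  ∀ k, ∃ l u, φ (FreeGroup.of k) = u * FreeGroup.of l * u⁻¹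

theorem GenConj.mul {φ ψ : MulAut (FreeGroup (Fin d))} (hφ : GenConj φ) (hψ : GenConj ψ) :
    GenConj (φ * ψ) := by
  intro k
  obtain ⟨l, u, h⟩ := hψ k
  obtain ⟨m, w, h'⟩ := hφ l
  refine ⟨m, φ u * w, ?_⟩
  rw [MulAut.mul_apply, h, map_mul, map_mul, map_inv, h']
  group

theorem genConj_artin (g : BraidGroup d) : GenConj (artin d g) := by
  have key : ∀ g : BraidGroup d, GenConj (artin d g) ∧ GenConj (artin d g⁻¹) := by
    intro g
    have hb : g ∈ Subgroup.closure (Set.range (PresentedGroup.of (rels := braidRels d))) := by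
      rw [PresentedGroup.closure_range_of]; trivial
    induction hb using Subgroup.closure_induction with
    | mem z hz =>
      obtain ⟨i, rfl⟩ := hz
      have h0 : (PresentedGroup.of i : BraidGroup d) = sig i := rfl
      rw [h0]
      constructor
      · intro k
        rw [artin_sig, artinAut_apply]
        by_cases h1 : k = lo i
        · subst h1
          exact ⟨hi i, FreeGroup.of (lo i), artinFun_lo i⟩
        · by_cases h2 : k = hi i
          · subst h2
            exact ⟨lo i, 1, by rw [artinFun_hi]; simp⟩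
          · exact ⟨k, 1, by rw [artinFun_ne i h1 h2]; simp⟩
      · intro k
        have h3 : artin d (sig i)⁻¹ (FreeGroup.of k) = artinInv i (FreeGroup.of k) := by
          rw [map_inv, artin_sig]; rfl
        rw [h3]
        by_cases h1 : k = lo i
        · subst h1
          exact ⟨hi i, 1, by rw [artinInv_lo]; simp⟩
        · by_cases h2 : k = hi i
          · subst h2
            exact ⟨lo i, (FreeGroup.of (hi i))⁻¹, by rw [artinInv_hi]; simp⟩
          · exact ⟨k, 1, by rw [artinInv_ne i h1 h2]; simp⟩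
    | one =>
      have h : GenConj (artin d 1) := by
        intro k
        exact ⟨k, 1, by simp⟩
      refine ⟨h, ?_⟩
      rw [inv_one]
      exact h
    | mul a b _ _ ha hb =>
      refine ⟨?_, ?_⟩
      · rw [map_mul]; exact ha.1.mul hb.1
      · rw [mul_inv_rev, map_mul]; exact hb.2.mul ha.2
    | inv a _ ha =>
      refine ⟨ha.2, ?_⟩
      rw [inv_inv]; exact ha.1
  exact (key g).1

theorem IsSwap.conj' {t : Equiv.Perm (Fin N)} (ht : t.IsSwap) (u : Equiv.Perm (Fin N)) :
    (u * t * u⁻¹).IsSwap := by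
  obtain ⟨i, j, hij, rfl⟩ := ht
  refine ⟨u i, u j, fun h => hij (u.injective h), ?_⟩
  exact (Equiv.swap_apply_apply u i j).symm

theorem Simple.thg {θ : FreeGroup (Fin d) →* Equiv.Perm (Fin N)} (hs : Simple θ)
    (g : BraidGroup d) : Simple (thg θ g) := by
  intro k
  obtain ⟨l, u, h⟩ := genConj_artin g k
  rw [thg_apply, h, map_mul, map_mul, map_inv]
  exact IsSwap.conj' (hs l) _

theorem Lam_sq {θ : FreeGroup (Fin d) →* Equiv.Perm (Fin N)} (hs : Simple θ) (g : BraidGroup d)
    (k : Fin d) : Lam θ (artin d g (FreeGroup.of k)) * Lam θ (artin d g (FreeGroup.of k)) = 1 := by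
  obtain ⟨l, u, h⟩ := genConj_artin g k
  have h1 : Lam θ (FreeGroup.of l) * Lam θ (FreeGroup.of l) = 1 := by
    rw [Lam_of]; exact stp_sq (hs l) _
  rw [h, map_mul, map_mul, map_inv]
  calc Lam θ u * Lam θ (FreeGroup.of l) * (Lam θ u)⁻¹ *
        (Lam θ u * Lam θ (FreeGroup.of l) * (Lam θ u)⁻¹)
      = Lam θ u * (Lam θ (FreeGroup.of l) * Lam θ (FreeGroup.of l)) * (Lam θ u)⁻¹ := by group
    _ = 1 := by rw [h1]; group

/-- An involution over a transposition is determined by one vector. -/
theorem exists_vec {θ : FreeGroup (Fin d) →* Equiv.Perm (Fin N)} {y : FreeGroup (Fin d)}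
    (ht : (θ y).IsSwap) (hy : Lam θ y * Lam θ y = 1) :
    ∃ w : Fin d → ℤ, ∀ a, lam θ y a = sgn (θ y) a • w := by
  have h0 : ∀ a, lam θ y a + lam θ y (θ y a) = 0 := by
    intro a
    have := lam_mul θ y y a
    rw [← this, lam, map_mul, hy]
    rfl
  obtain ⟨i, j, hij, ht⟩ := ht
  have main : ∀ i j : Fin N, i < j → θ y = Equiv.swap i j →
      ∃ w : Fin d → ℤ, ∀ a, lam θ y a = sgn (θ y) a • w := by
    intro i j hij ht
    refine ⟨lam θ y i, fun a => ?_⟩
    have hij' : (i : ℕ) < (j : ℕ) := hij
    by_cases h1 : a = i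
    · subst h1
      have : sgn (θ y) a = 1 := by
        rw [sgn, ht, Equiv.swap_apply_left]
        exact Int.sign_eq_one_of_pos (by omega)
      rw [this, one_smul]
    · by_cases h2 : a = j
      · subst h2
        have : sgn (θ y) a = -1 := by
          rw [sgn, ht, Equiv.swap_apply_right]
          exact Int.sign_eq_neg_one_of_neg (by omega)
        rw [this]
        have h3 := h0 i
        rw [ht, Equiv.swap_apply_left] at h3
        rw [neg_smul, one_smul]
        exact eq_neg_of_add_eq_zero_right h3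
      · have h3 : θ y a = a := by rw [ht, Equiv.swap_apply_of_ne_of_ne h1 h2]
        have h4 := h0 a
        rw [h3] at h4
        rw [sgn_of_fix h3, zero_smul]
        funext k
        have h5 := congrFun h4 k
        simp only [Pi.add_apply, Pi.zero_apply] at h5 ⊢
        omega
  rcases lt_or_gt_of_ne hij with h | h
  · exact main i j h ht
  · exact main j i h (by rw [ht, Equiv.swap_comm])

/-- The linear map induced by a braid. -/
theorem exists_L {θ : FreeGroup (Fin d) →* Equiv.Perm (Fin N)} (hs : Simple θ)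
    (g : BraidGroup d) : ∃ L : (Fin d → ℤ) →ₗ[ℤ] (Fin d → ℤ),
      ∀ x a, lam θ (artin d g x) a = L (lam (thg θ g) x a) := by
  have h1 : ∀ k : Fin d, ∃ w : Fin d → ℤ, ∀ a,
      lam θ (artin d g (FreeGroup.of k)) a = sgn (thg θ g (FreeGroup.of k)) a • w := by
    intro k
    exact exists_vec (hs.thg g k) (Lam_sq hs g k)
  choose w hw using h1
  let L : (Fin d → ℤ) →ₗ[ℤ] (Fin d → ℤ) :=
    { toFun := fun v => ∑ k, v k • w k
      map_add' := by
        intro v v'
        simp only [Pi.add_apply, add_smul, Finset.sum_add_distrib]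
      map_smul' := by
        intro c v
        simp only [Pi.smul_apply, smul_eq_mul, RingHom.id_apply, Finset.smul_sum, mul_smul] }
  have hL : ∀ k, L (ev k) = w k := by
    intro k
    show ∑ l, (ev k) l • w l = w k
    rw [Finset.sum_eq_single k]
    · simp [ev]
    · intro l _ hl
      simp [ev, hl]
    · intro h; exact absurd (Finset.mem_univ k) h
  refine ⟨L, fun x => ?_⟩
  induction x using FreeGroup.induction_on with
  | C1 => intro a; simp
  | of k =>
    intro a
    rw [hw, lam_of, map_smul, hL]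
  | inv_of k h =>
    intro a
    have e : thg θ g (FreeGroup.of k)⁻¹ = θ (artin d g (FreeGroup.of k))⁻¹ := by
      rw [thg_apply, map_inv]
    rw [map_inv, lam_inv, lam_inv, map_neg, h, e]
  | mul x y hx hy =>
    intro a
    rw [map_mul, lam_mul, lam_mul, map_add, hy, hx]
    rfl

end Pool.Agent.Helper834.Gen
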