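import Pool.Agent.Helper834.Gen.Lam

/-!
The action of the half-twists and of their powers on the lifts of paths.
-/

namespace Pool.Agent.Helper834.Gen

open Pool.Agent.Helper496.BraidFact Pool.Agent.Helper834

variable {N d : ℕ}

/-! ### Commuting and braiding lifts -/

theorem swap_cases {t t' : Equiv.Perm (Fin N)} (ht : t.IsSwap) (ht' : t'.IsSwap) :
    t = t' ∨ (t ≠ t' ∧ Commute t t' ∧ ∀ a, t a = a ∨ t' a = a) ∨
      (¬ Commute t t' ∧ ∃ i j l : Fin N, i ≠ j ∧ j ≠ l ∧ i ≠ l ∧ t = Equiv.swap i j ∧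
        t' = Equiv.swap j l) := by
  obtain ⟨a, b, hab, rfl⟩ := ht
  obtain ⟨c, e, hce, rfl⟩ := ht'
  have nc : ∀ i j l : Fin N, i ≠ j → j ≠ l → i ≠ l →
      ¬ Commute (Equiv.swap i j) (Equiv.swap j l) := by
    intro i j l h1 h2 h3 h
    have h4 := DFunLike.congr_fun h.eq i
    rw [Equiv.Perm.mul_apply, Equiv.Perm.mul_apply, Equiv.swap_apply_left,
      Equiv.swap_apply_of_ne_of_ne h1 h3, Equiv.swap_apply_left, Equiv.swap_apply_left] at h4
    exact h2 h4
  by_cases h1 : a = c
  · subst h1
    by_cases h2 : b = e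
    · subst h2; left; rfl
    · right; right
      rw [Equiv.swap_comm a b]
      exact ⟨nc b a e hab.symm hce h2, b, a, e, hab.symm, hce, h2, rfl, rfl⟩
  · by_cases h2 : a = e
    · subst h2
      by_cases h3 : b = c
      · subst h3; left; rw [Equiv.swap_comm]
      · right; right
        rw [Equiv.swap_comm a b, Equiv.swap_comm c a]
        exact ⟨nc b a c hab.symm hce.symm h3, b, a, c, hab.symm, hce.symm, h3, rfl, rfl⟩
    · by_cases h3 : b = c
      · subst h3
        right; right
        exact ⟨nc a b e hab hce h2, a, b, e, hab, hce, h2, rfl, rfl⟩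
      · by_cases h4 : b = e
        · subst h4
          right; right
          rw [Equiv.swap_comm c b]
          exact ⟨nc a b c hab hce.symm h1, a, b, c, hab, hce.symm, h1, rfl, rfl⟩
        · right; left
          refine ⟨?_, ?_, ?_⟩
          · intro h
            have h5 := DFunLike.congr_fun h a
            rw [Equiv.swap_apply_left, Equiv.swap_apply_of_ne_of_ne h1 h2] at h5
            exact hab h5.symm
          · apply (Equiv.Perm.Disjoint.commute)
            apply Equiv.Perm.disjoint_swap_swap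
            simp [hab, h1, h2, h3, h4, hce]
          · intro x
            by_cases h5 : x = a
            · right; rw [h5, Equiv.swap_apply_of_ne_of_ne h1 h2]
            · by_cases h6 : x = b
              · right; rw [h6, Equiv.swap_apply_of_ne_of_ne h3 h4]
              · left; rw [Equiv.swap_apply_of_ne_of_ne h5 h6]

theorem stp_commute {M : Type} [AddCommGroup M] {t t' : Equiv.Perm (Fin N)}
    (hc : Commute t t') (h : ∀ a, t a = a ∨ t' a = a) (u u' : M) :
    Commute (stp t u) (stp t' u') := by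
  ext1 p
  obtain ⟨a, v⟩ := p
  rw [Equiv.Perm.mul_apply, Equiv.Perm.mul_apply, stp_apply, stp_apply, stp_apply, stp_apply]
  have e1 : t (t' a) = t' (t a) := DFunLike.congr_fun hc.eq a
  rcases h a with ha | ha
  · have e2 : t (t' a) = t' a := by rw [e1, ha]
    rw [ha, e2, sgn_of_fix ha, sgn_of_fix e2]
    simp
  · have e2 : t' (t a) = t a := by rw [← e1, ha]
    rw [ha, e2, sgn_of_fix ha, sgn_of_fix e2]
    simp

theorem stp_braid {M : Type} [AddCommGroup M] {i j l : Fin N} (h1 : i ≠ j) (h2 : j ≠ l)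
    (h3 : i ≠ l) (u u' : M) :
    stp (Equiv.swap i j) u * stp (Equiv.swap j l) u' * stp (Equiv.swap i j) u =
      stp (Equiv.swap j l) u' * stp (Equiv.swap i j) u * stp (Equiv.swap j l) u' := by
  have a1 : Equiv.swap i j i = j := Equiv.swap_apply_left i j
  have a2 : Equiv.swap i j j = i := Equiv.swap_apply_right i j
  have a3 : Equiv.swap i j l = l := Equiv.swap_apply_of_ne_of_ne h3.symm h2.symm
  have b1 : Equiv.swap j l j = l := Equiv.swap_apply_left j l
  have b2 : Equiv.swap j l l = j := Equiv.swap_apply_right j l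
  have b3 : Equiv.swap j l i = i := Equiv.swap_apply_of_ne_of_ne h1 h3
  have s1 : sgn (Equiv.swap i j) j = - sgn (Equiv.swap i j) i := by
    have := sgn_swap (t := Equiv.swap i j) ⟨i, j, h1, rfl⟩ i
    rwa [a1] at this
  have s2 : sgn (Equiv.swap j l) l = - sgn (Equiv.swap j l) j := by
    have := sgn_swap (t := Equiv.swap j l) ⟨j, l, h2, rfl⟩ j
    rwa [b1] at this
  have s3 : sgn (Equiv.swap i j) l = 0 := sgn_of_fix a3
  have s4 : sgn (Equiv.swap j l) i = 0 := sgn_of_fix b3
  ext1 p
  obtain ⟨a, v⟩ := p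
  simp only [Equiv.Perm.mul_apply, stp_apply]
  by_cases ha : a = i
  · subst ha
    simp only [a1, a2, a3, b1, b2, b3, s1, s2, s3, s4]
    simp
  · by_cases hb : a = j
    · subst hb
      simp only [a1, a2, a3, b1, b2, b3, s1, s2, s3, s4]
      simp
    · by_cases hc : a = l
      · subst hc
        simp only [a1, a2, a3, b1, b2, b3, s1, s2, s3, s4]
        simp
      · have c1 : Equiv.swap i j a = a := Equiv.swap_apply_of_ne_of_ne ha hb
        have c2 : Equiv.swap j l a = a := Equiv.swap_apply_of_ne_of_ne hb hc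
        simp only [c1, c2, sgn_of_fix c1, sgn_of_fix c2]
        simp

/-! ### Nodes and cusps -/

theorem comp_sig_ext {G : Type} [Group G] (Φ : FreeGroup (Fin d) →* G) (i : Fin (d - 1)) (n : ℕ)
    (h1 : Φ (artin d (sig i ^ n) (FreeGroup.of (lo i))) = Φ (FreeGroup.of (lo i)))
    (h2 : Φ (artin d (sig i ^ n) (FreeGroup.of (hi i))) = Φ (FreeGroup.of (hi i)))
    (x : FreeGroup (Fin d)) : Φ (artin d (sig i ^ n) x) = Φ x := by
  have key : Φ.comp (artin d (sig i ^ n)).toMonoidHom = Φ := by
    ext1 k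
    show Φ (artin d (sig i ^ n) (FreeGroup.of k)) = Φ (FreeGroup.of k)
    by_cases e1 : k = lo i
    · subst e1; exact h1
    · by_cases e2 : k = hi i
      · subst e2; exact h2
      · congr 1
        induction n with
        | zero => simp
        | succ n ih =>
          have h3 : artin d (sig i) (FreeGroup.of k) = FreeGroup.of k := by
            rw [artin_sig, artinAut_apply, artinFun_ne i e1 e2]
          have h4 : ∀ m : ℕ, artin d (sig i ^ m) (FreeGroup.of k) = FreeGroup.of k := by
            intro m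
            induction m with
            | zero => simp
            | succ m im =>
              rw [pow_succ, map_mul, MulAut.mul_apply, h3, im]
          exact h4 _
  exact DFunLike.congr_fun key x

theorem artin_sq_lo (i : Fin (d - 1)) : artin d (sig i ^ 2) (FreeGroup.of (lo i)) =
    FreeGroup.of (lo i) * FreeGroup.of (hi i) * FreeGroup.of (lo i) *
      (FreeGroup.of (hi i))⁻¹ * (FreeGroup.of (lo i))⁻¹ := by
  rw [pow_two, map_mul, MulAut.mul_apply, artin_sig, artinAut_apply, artinAut_apply]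
  simp only [artinFun_lo, artinFun_hi, map_mul, map_inv]
  group

theorem artin_sq_hi (i : Fin (d - 1)) : artin d (sig i ^ 2) (FreeGroup.of (hi i)) =
    FreeGroup.of (lo i) * FreeGroup.of (hi i) * (FreeGroup.of (lo i))⁻¹ := by
  rw [pow_two, map_mul, MulAut.mul_apply, artin_sig, artinAut_apply, artinAut_apply]
  simp only [artinFun_lo, artinFun_hi]

theorem node_inv {G : Type} [Group G] (Φ : FreeGroup (Fin d) →* G) (i : Fin (d - 1))
    (h : Commute (Φ (FreeGroup.of (lo i))) (Φ (FreeGroup.of (hi i)))) (x : FreeGroup (Fin d)) :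
    Φ (artin d (sig i ^ 2) x) = Φ x := by
  have e := h.eq
  apply comp_sig_ext
  · rw [artin_sq_lo]
    simp only [map_mul, map_inv]
    rw [mul_assoc (Φ (FreeGroup.of (lo i))), ← e]
    group
  · rw [artin_sq_hi]
    simp only [map_mul, map_inv]
    rw [e]
    group

theorem cusp_inv {G : Type} [Group G] (Φ : FreeGroup (Fin d) →* G) (i : Fin (d - 1))
    (h : Φ (FreeGroup.of (lo i)) * Φ (FreeGroup.of (hi i)) * Φ (FreeGroup.of (lo i)) =
      Φ (FreeGroup.of (hi i)) * Φ (FreeGroup.of (lo i)) * Φ (FreeGroup.of (hi i)))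
    (x : FreeGroup (Fin d)) : Φ (artin d (sig i ^ 3) x) = Φ x := by
  have h1 : artin d (sig i ^ 3) (FreeGroup.of (hi i)) =
      FreeGroup.of (lo i) * FreeGroup.of (hi i) * FreeGroup.of (lo i) *
      (FreeGroup.of (hi i))⁻¹ * (FreeGroup.of (lo i))⁻¹ := by
    rw [pow_succ, map_mul, MulAut.mul_apply, artin_sig, artinAut_apply, artinFun_hi, ← artin_sq_lo]
  have h2 : artin d (sig i ^ 3) (FreeGroup.of (lo i)) =
      (FreeGroup.of (lo i) * FreeGroup.of (hi i) * FreeGroup.of (lo i) *
      (FreeGroup.of (hi i))⁻¹ * (FreeGroup.of (lo i))⁻¹) *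
      (FreeGroup.of (lo i) * FreeGroup.of (hi i) * (FreeGroup.of (lo i))⁻¹) *
      (FreeGroup.of (lo i) * FreeGroup.of (hi i) * FreeGroup.of (lo i) *
      (FreeGroup.of (hi i))⁻¹ * (FreeGroup.of (lo i))⁻¹)⁻¹ := by
    rw [pow_succ, map_mul, MulAut.mul_apply, artin_sig, artinAut_apply, artinFun_lo, map_mul,
      map_mul, map_inv, ← artin_sq_lo, ← artin_sq_hi]
  generalize hX : Φ (FreeGroup.of (lo i)) = X at h
  generalize hY : Φ (FreeGroup.of (hi i)) = Y at h
  have e1 : X * Y * X * Y⁻¹ * X⁻¹ = Y := by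
    rw [h]; group
  apply comp_sig_ext
  · rw [h2]
    simp only [map_mul, map_inv, hX, hY]
    rw [e1]
    calc Y * (X * Y * X⁻¹) * Y⁻¹ = (Y * X * Y) * X⁻¹ * Y⁻¹ := by group
      _ = X := by rw [← h]; group
  · rw [h1]
    simp only [map_mul, map_inv, hX, hY]
    exact e1

/-- Lifts of the generators commute at a node. -/
theorem Lam_node {θ : FreeGroup (Fin d) →* Equiv.Perm (Fin N)} (hs : Simple θ) {k l : Fin d}
    (h1 : θ (FreeGroup.of k) ≠ θ (FreeGroup.of l))
    (h2 : Commute (θ (FreeGroup.of k)) (θ (FreeGroup.of l))) :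
    Commute (Lam θ (FreeGroup.of k)) (Lam θ (FreeGroup.of l)) := by
  rw [Lam_of, Lam_of]
  rcases swap_cases (hs k) (hs l) with h | ⟨-, h, h'⟩ | ⟨h, -⟩
  · exact absurd h h1
  · exact stp_commute h h' _ _
  · exact absurd h2 h

theorem Lam_cusp {θ : FreeGroup (Fin d) →* Equiv.Perm (Fin N)} (hs : Simple θ) {k l : Fin d}
    (h2 : ¬ Commute (θ (FreeGroup.of k)) (θ (FreeGroup.of l))) :
    Lam θ (FreeGroup.of k) * Lam θ (FreeGroup.of l) * Lam θ (FreeGroup.of k) =
      Lam θ (FreeGroup.of l) * Lam θ (FreeGroup.of k) * Lam θ (FreeGroup.of l) := by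
  rw [Lam_of, Lam_of]
  rcases swap_cases (hs k) (hs l) with h | ⟨-, h, -⟩ | ⟨-, i, j, l, e1, e2, e3, e4, e5⟩
  · exact absurd (h ▸ Commute.refl _) h2
  · exact absurd h h2
  · rw [e4, e5]
    exact stp_braid e1 e2 e3 _ _

/-- Nodes and cusps do not change the lifts. -/
theorem Lam_local {θ : FreeGroup (Fin d) →* Equiv.Perm (Fin N)} (hs : Simple θ)
    (i : Fin (d - 1)) (K : Kind) (hK : K ≠ .tangency)
    (h : (⟨1, i, K⟩ : Factor d).Compat θ) (x : FreeGroup (Fin d)) :
    Lam θ (artin d (sig i ^ K.expo) x) = Lam θ x := by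
  have e : ∀ y : FreeGroup (Fin d), artin d 1 y = y := by intro y; simp
  cases K with
  | tangency => exact absurd rfl hK
  | posNode =>
    have h' : θ (artin d 1 (FreeGroup.of (lo i))) ≠ θ (artin d 1 (FreeGroup.of (hi i))) ∧
      Commute (θ (artin d 1 (FreeGroup.of (lo i)))) (θ (artin d 1 (FreeGroup.of (hi i)))) := h
    rw [e, e] at h'
    exact node_inv (Lam θ) i (Lam_node hs h'.1 h'.2) x
  | negNode =>
    have h' : θ (artin d 1 (FreeGroup.of (lo i))) ≠ θ (artin d 1 (FreeGroup.of (hi i))) ∧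
      Commute (θ (artin d 1 (FreeGroup.of (lo i)))) (θ (artin d 1 (FreeGroup.of (hi i)))) := h
    rw [e, e] at h'
    have h1 := node_inv (Lam θ) i (Lam_node hs h'.1 h'.2) (artin d (sig i ^ (-2 : ℤ)) x)
    rw [← MulAut.mul_apply, ← map_mul] at h1
    have h2 : sig i ^ 2 * sig i ^ (-2 : ℤ) = (1 : BraidGroup d) := by
      rw [← zpow_natCast, ← zpow_add]; simp
    rw [h2, e] at h1
    exact h1.symm
  | cusp =>
    have h' : ¬ Commute (θ (artin d 1 (FreeGroup.of (lo i))))
      (θ (artin d 1 (FreeGroup.of (hi i)))) := h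
    rw [e, e] at h'
    exact cusp_inv (Lam θ) i (Lam_cusp hs h') x

theorem th_of_Lam {θ : FreeGroup (Fin d) →* Equiv.Perm (Fin N)} {x y : FreeGroup (Fin d)}
    (h : Lam θ x = Lam θ y) : θ x = θ y := by
  ext1 a
  have h1 : Lam θ x (a, 0) = Lam θ y (a, 0) := by rw [h]
  rw [Lam_apply, Lam_apply] at h1
  exact congrArg Prod.fst h1

/-! ### Tangencies -/

theorem tang_th {θ : FreeGroup (Fin d) →* Equiv.Perm (Fin N)} {i : Fin (d - 1)}
    (h : θ (FreeGroup.of (lo i)) = θ (FreeGroup.of (hi i))) (x : FreeGroup (Fin d)) :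
    θ (artin d (sig i) x) = θ x := by
  have h1 := comp_sig_ext θ i 1 (by
    rw [pow_one, artin_sig, artinAut_apply, artinFun_lo]
    simp only [map_mul, map_inv]
    rw [h]; group) (by
    rw [pow_one, artin_sig, artinAut_apply, artinFun_hi, h]) x
  rwa [pow_one] at h1

theorem tang_lam {θ : FreeGroup (Fin d) →* Equiv.Perm (Fin N)} (hs : Simple θ)
    {i : Fin (d - 1)}
    (h : θ (FreeGroup.of (lo i)) = θ (FreeGroup.of (hi i))) (x : FreeGroup (Fin d)) :
    ∀ a, lam θ (artin d (sig i) x) a = lam θ x a +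
      (lam θ x a (lo i) + lam θ x a (hi i)) • (ev (lo i) - ev (hi i)) := by
  have hne : lo i ≠ hi i := (hi_ne_lo i).symm
  induction x using FreeGroup.induction_on with
  | C1 => intro a; simp
  | of k =>
    intro a
    rw [lam_of, artin_sig, artinAut_apply]
    by_cases h1 : k = lo i
    · subst h1
      rw [artinFun_lo, lam_mul, lam_mul, lam_inv, lam_of, lam_of, lam_of, map_inv]
      have e1 : (θ (FreeGroup.of (lo i)))⁻¹ = θ (FreeGroup.of (lo i)) := by
        rw [inv_eq_iff_mul_eq_one]
        exact Helper496.BraidFact.isSwap_sq (hs (lo i))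
      rw [e1, ← h, isSwap_invol (hs (lo i)), sgn_swap (hs (lo i))]
      funext l
      simp only [Pi.add_apply, Pi.smul_apply, Pi.neg_apply, Pi.sub_apply, smul_eq_mul, ev,
        Pi.single_apply]
      by_cases l1 : l = lo i
      · subst l1
        simp [hne, hne.symm]
      · by_cases l2 : l = hi i
        · subst l2
          simp [hne, hne.symm]
        · simp [l1, l2]
    · by_cases h2 : k = hi i
      · subst h2
        rw [artinFun_hi, lam_of, h]
        funext l
        simp only [Pi.add_apply, Pi.smul_apply, Pi.sub_apply, smul_eq_mul, ev,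
          Pi.single_apply]
        by_cases l1 : l = lo i
        · subst l1
          simp [hne, hne.symm]
        · by_cases l2 : l = hi i
          · subst l2
            simp [hne, hne.symm]
          · simp [l1, l2]
      · rw [artinFun_ne i h1 h2, lam_of]
        funext l
        simp only [Pi.add_apply, Pi.smul_apply, Pi.sub_apply, smul_eq_mul, ev,
          Pi.single_apply]
        simp [Ne.symm h1, Ne.symm h2]
  | inv_of k hk =>
    intro a
    rw [map_inv, lam_inv, lam_inv, hk, ← map_inv, tang_th h]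
    simp only [Pi.neg_apply]
    module
  | mul x y hx hy =>
    intro a
    rw [map_mul, lam_mul, lam_mul, tang_th h, hx, hy]
    simp only [Pi.add_apply]
    module

end Pool.Agent.Helper834.Gen
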