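import Pool.Agent.Helper834.Gen.Cut

/-!
The pentagon functional: the cuts of the tangencies of the branch curve of a covering of genus `0`
split off at most one sheet.
-/

namespace Pool.Agent.Helper834.Gen

open Pool.Agent.Helper496.BraidFact Pool.Agent.Helper834

variable {n d : ℕ} {θ : FreeGroup (Fin d) →* Equiv.Perm (Fin n)} {hd : 0 < d}

/-- The characteristic function of a finite set. -/
def chi (A : Finset (Fin n)) (a : Fin n) : ℤ := if a ∈ A then 1 else 0

theorem chi_cases (A : Finset (Fin n)) (a : Fin n) : chi A a = 0 ∨ chi A a = 1 := by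
  unfold chi
  split_ifs <;> simp

theorem exists_cut (h : Rat θ hd) {p : Factor d} (hp : p.Compat θ) :
    ∃ A : Finset (Fin n), ∀ x a, S θ p.braid x a =
      (chi A (θ x a) - chi A a) • ∑ s ∈ A, bd θ hd s := by
  by_cases hk : p.kind = .tangency
  · exact S_tang h hp hk
  · exact ⟨∅, fun x a => by rw [S_local h.simple hp hk]; simp⟩

/-- The pairing of the variation of `b` with the pair of sheets `i`, `j`. -/
def q (θ : FreeGroup (Fin d) →* Equiv.Perm (Fin n))
    (R : Fin n → Fin n → ((Fin d → ℤ) →ₗ[ℤ] ℤ)) (Y : Fin n → Fin n → FreeGroup (Fin d))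
    (b : BraidGroup d) (i j : Fin n) : ℤ := R i j (S θ b (Y i j) i)

/-- The choices made for the pairing. -/
structure Choices (θ : FreeGroup (Fin d) →* Equiv.Perm (Fin n)) (hd : 0 < d)
    (R : Fin n → Fin n → ((Fin d → ℤ) →ₗ[ℤ] ℤ)) (Y : Fin n → Fin n → FreeGroup (Fin d)) :
    Prop where
  hR : ∀ i j a, R i j (bd θ hd a) = (if a = j then 1 else 0) - (if a = i then 1 else 0)
  hY : ∀ i j, θ (Y i j) i = j

variable {R : Fin n → Fin n → ((Fin d → ℤ) →ₗ[ℤ] ℤ)} {Y : Fin n → Fin n → FreeGroup (Fin d)}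

theorem exists_choices (h : Rat θ hd) : ∃ R Y, Choices θ hd R Y := by
  choose R hR using h.dual
  choose Y hY using h.trans
  exact ⟨R, Y, hR, hY⟩

theorem R_sum (c : Choices θ hd R Y) (A : Finset (Fin n)) (i j : Fin n) :
    R i j (∑ s ∈ A, bd θ hd s) = chi A j - chi A i := by
  rw [map_sum]
  simp only [c.hR]
  rw [Finset.sum_sub_distrib, Finset.sum_ite_eq', Finset.sum_ite_eq']
  rfl

theorem q_cut (c : Choices θ hd R Y) {b : BraidGroup d} {A : Finset (Fin n)}
    (hA : ∀ x a, S θ b x a = (chi A (θ x a) - chi A a) • ∑ s ∈ A, bd θ hd s) (i j : Fin n) :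
    q θ R Y b i j = (chi A j - chi A i) ^ 2 := by
  rw [q, hA, map_smul, R_sum c, c.hY, smul_eq_mul, pow_two]

theorem q_full (c : Choices θ hd R Y) (h1 : θ (pr hd d) = 1) {i j : Fin n} (hij : i ≠ j) :
    q θ R Y (rot d ^ d) i j = 2 := by
  rw [q, S_full (hd := hd) _ _ h1, map_sub, c.hR, c.hR, c.hY]
  simp [hij, hij.symm]

theorem q_mul (h : Rat θ hd) {b c : BraidGroup d} (hb : b ∈ LB θ) (hc : c ∈ LB θ)
    (i j : Fin n) : q θ R Y (b * c) i j = q θ R Y b i j + q θ R Y c i j := by
  rw [q, S_mul h hb hc, map_add]; rfl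

theorem q_inv (h : Rat θ hd) {b : BraidGroup d} (hb : b ∈ LB θ)
    (i j : Fin n) : q θ R Y b⁻¹ i j = - q θ R Y b i j := by
  rw [q, S_inv h hb, map_neg]; rfl

theorem q_one (i j : Fin n) : q θ R Y (1 : BraidGroup d) i j = 0 := by
  rw [q, S_one, map_zero]

/-- The pentagon functional of an integral function of pairs. -/
def pent (f : Fin n → Fin n → ℤ) (s : Fin 5 → Fin n) : ℤ :=
  f (s 0) (s 1) + f (s 0) (s 2) + f (s 1) (s 2) + f (s 3) (s 4) - f (s 0) (s 3) -
    f (s 0) (s 4) - f (s 1) (s 3) - f (s 1) (s 4) - f (s 2) (s 3) - f (s 2) (s 4)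

theorem pent_prod (h : Rat θ hd) (s : Fin 5 → Fin n) (F : List (Factor d))
    (hF : ∀ p ∈ F, p.Compat θ) :
    (F.map Factor.braid).prod ∈ LB θ ∧ pent (q θ R Y (F.map Factor.braid).prod) s =
      (F.map (fun p => pent (q θ R Y p.braid) s)).sum := by
  induction F with
  | nil =>
    refine ⟨one_mem _, ?_⟩
    simp [pent, q_one]
  | cons p F ih =>
    obtain ⟨ih1, ih2⟩ := ih (fun p hp => hF p (List.mem_cons_of_mem _ hp))
    have hp := braid_mem h.simple (hF p List.mem_cons_self)
    simp only [List.map_cons, List.prod_cons, List.sum_cons]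
    refine ⟨mul_mem hp ih1, ?_⟩
    rw [← ih2]
    simp only [pent, q_mul h hp ih1]
    ring

theorem pent_le (c : Choices θ hd R Y) {b : BraidGroup d} {A : Finset (Fin n)}
    (hA : ∀ x a, S θ b x a = (chi A (θ x a) - chi A a) • ∑ s ∈ A, bd θ hd s)
    (s : Fin 5 → Fin n) : pent (q θ R Y b) s ≤ 0 := by
  simp only [pent, q_cut c hA]
  rcases chi_cases A (s 0) with h0 | h0 <;> rcases chi_cases A (s 1) with h1 | h1 <;>
  rcases chi_cases A (s 2) with h2 | h2 <;> rcases chi_cases A (s 3) with h3 | h3 <;>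
  rcases chi_cases A (s 4) with h4 | h4 <;> rw [h0, h1, h2, h3, h4] <;> norm_num

theorem le_of_sum {L : List ℤ} (h : ∀ x ∈ L, x ≤ 0) {x : ℤ} (hx : x ∈ L) : L.sum ≤ x := by
  induction L with
  | nil => simp at hx
  | cons y L ih =>
    have h1 : L.sum ≤ 0 := by
      clear ih hx
      induction L with
      | nil => simp
      | cons z L ih =>
        rw [List.sum_cons]
        have h2 := h z (by simp)
        have h3 := ih (fun x hx => h x (by
          rcases List.mem_cons.1 hx with h | h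
          · simp [h]
          · simp [h]))
        omega
    rw [List.sum_cons]
    rcases List.mem_cons.1 hx with h2 | h2
    · rw [h2]; omega
    · have h3 := ih (fun x hx => h x (List.mem_cons_of_mem _ hx)) h2
      have h4 := h y List.mem_cons_self
      omega

theorem closed_pr {X : Covering n d 1} (hd : 0 < d) : X.θ (pr hd d) = 1 := by
  rw [pr, ← map_finRange_eq (fun j : Fin d => (FreeGroup.of j : FreeGroup (Fin d))) (gx hd)
    (fun i => (gx_of hd i.2).symm), map_list_prod, List.map_map]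
  exact X.closed

/-- The pentagon functional of every special point is at least `-4`. -/
theorem pent_ge (X : Covering n d 1) (h : Rat X.θ hd) (c : Choices X.θ hd R Y)
    (s : Fin 5 → Fin n) (hs : Function.Injective s) {p : Factor d} (hp : p ∈ X.F) :
    -4 ≤ pent (q X.θ R Y p.braid) s := by
  have h1 := (pent_prod (R := R) (Y := Y) h s X.F X.compatible).2
  have h2 : pent (q X.θ R Y (X.F.map Factor.braid).prod) s = -4 := by
    rw [X.factorization, mul_one, pent]
    have e : ∀ u v : Fin 5, u ≠ v → q X.θ R Y (rot d ^ d) (s u) (s v) = 2 := by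
      intro u v huv
      exact q_full c (closed_pr hd) (fun h => huv (hs h))
    rw [e 0 1 (by decide), e 0 2 (by decide), e 1 2 (by decide), e 3 4 (by decide),
      e 0 3 (by decide), e 0 4 (by decide), e 1 3 (by decide), e 1 4 (by decide),
      e 2 3 (by decide), e 2 4 (by decide)]
    norm_num
  rw [h2] at h1
  rw [h1]
  apply le_of_sum
  · intro x hx
    rw [List.mem_map] at hx
    obtain ⟨p, hp, rfl⟩ := hx
    obtain ⟨A, hA⟩ := exists_cut h (X.compatible p hp)
    exact pent_le c hA s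
  · rw [List.mem_map]
    exact ⟨p, hp, rfl⟩

/-- The function which detects that the braids of the special points do not generate. -/
def psi (f : Fin n → Fin n → ℤ) (s : Fin 5 → Fin n) : ℤ :=
  f (s 0) (s 1) + f (s 2) (s 3) - f (s 0) (s 2) - f (s 1) (s 3)

theorem psi_factor (X : Covering n d 1) (h : Rat X.θ hd) (c : Choices X.θ hd R Y)
    (s : Fin 5 → Fin n) (hs : Function.Injective s) {p : Factor d} (hp : p ∈ X.F) :
    psi (q X.θ R Y p.braid) s = 0 := by
  obtain ⟨A, hA⟩ := exists_cut h (X.compatible p hp)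
  have key : ∀ u : Fin 5 → Fin 5, Function.Injective u →
      -4 ≤ pent (q X.θ R Y p.braid) (s ∘ u) := fun u hu =>
    pent_ge X h c (s ∘ u) (hs.comp hu) hp
  have key' : ∀ u0 u1 u2 u3 u4 : Fin 5, Function.Injective ![u0, u1, u2, u3, u4] →
      -4 ≤ (chi A (s u1) - chi A (s u0)) ^ 2 + (chi A (s u2) - chi A (s u0)) ^ 2 +
        (chi A (s u2) - chi A (s u1)) ^ 2 + (chi A (s u4) - chi A (s u3)) ^ 2 -
        (chi A (s u3) - chi A (s u0)) ^ 2 - (chi A (s u4) - chi A (s u0)) ^ 2 -
        (chi A (s u3) - chi A (s u1)) ^ 2 - (chi A (s u4) - chi A (s u1)) ^ 2 -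
        (chi A (s u3) - chi A (s u2)) ^ 2 - (chi A (s u4) - chi A (s u2)) ^ 2 := by
    intro u0 u1 u2 u3 u4 hu
    have h1 := key _ hu
    simp only [pent, q_cut c hA] at h1
    exact h1
  have k01 := key' 3 4 2 0 1 (by decide)
  have k02 := key' 3 4 1 0 2 (by decide)
  have k12 := key' 3 4 0 1 2 (by decide)
  have k03 := key' 1 2 4 0 3 (by decide)
  have k13 := key' 0 2 4 1 3 (by decide)
  have k23 := key' 0 1 4 2 3 (by decide)
  clear key key'
  simp only [psi, q_cut c hA]
  rcases chi_cases A (s 0) with a0 | a0 <;> rcases chi_cases A (s 1) with a1 | a1 <;>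
  rcases chi_cases A (s 2) with a2 | a2 <;> rcases chi_cases A (s 3) with a3 | a3 <;>
  rcases chi_cases A (s 4) with a4 | a4 <;> rw [a0, a1, a2, a3, a4] at k01 k02 k12 k03 k13 k23 <;>
  rw [a0, a1, a2, a3] <;> norm_num at *

theorem psi_closure (X : Covering n d 1) (h : Rat X.θ hd) (c : Choices X.θ hd R Y)
    (s : Fin 5 → Fin n) (hs : Function.Injective s) {b : BraidGroup d}
    (hb : b ∈ Subgroup.closure {b | ∃ p ∈ X.F, p.braid = b}) :
    b ∈ LB X.θ ∧ psi (q X.θ R Y b) s = 0 := by
  induction hb using Subgroup.closure_induction with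
  | mem z hz =>
    obtain ⟨p, hp, rfl⟩ := hz
    exact ⟨braid_mem h.simple (X.compatible p hp), psi_factor X h c s hs hp⟩
  | one => exact ⟨one_mem _, by simp [psi, q_one]⟩
  | mul a b _ _ ha hb =>
    refine ⟨mul_mem ha.1 hb.1, ?_⟩
    have h1 := ha.2
    have h2 := hb.2
    simp only [psi, q_mul h ha.1 hb.1] at *
    omega
  | inv a _ ha =>
    refine ⟨inv_mem ha.1, ?_⟩
    have h1 := ha.2
    simp only [psi, q_inv h ha.1] at *
    omega

end Pool.Agent.Helper834.Gen
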