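import Pool.Agent.Helper834.Gen.Pent

/-!
The standard covering of the sphere by the sphere.
-/

namespace Pool.Agent.Helper834.Gen

open Pool.Agent.Helper496.BraidFact Pool.Agent.Helper834

/-- The standard monodromy of a simple covering of the line by the line of degree `N + 1`: the
free generators with the indices `2 m` and `2 m + 1` exchange the sheets `m` and `m + 1`. -/
def std (N : ℕ) : FreeGroup (Fin (2 * N)) →* Equiv.Perm (Fin (N + 1)) :=
  FreeGroup.lift (fun k => Equiv.swap ⟨(k : ℕ) / 2, by omega⟩ ⟨(k : ℕ) / 2 + 1, by omega⟩)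

variable {N : ℕ}

theorem std_of (k : Fin (2 * N)) : std N (FreeGroup.of k) =
    Equiv.swap ⟨(k : ℕ) / 2, by omega⟩ ⟨(k : ℕ) / 2 + 1, by omega⟩ := by
  simp [std]

/-- The value of an integral vector at a natural number. -/
def vN (v : Fin (2 * N) → ℤ) (j : ℕ) : ℤ := if h : j < 2 * N then v ⟨j, h⟩ else 0

theorem vN_lt (v : Fin (2 * N) → ℤ) {j : ℕ} (h : j < 2 * N) : vN v j = v ⟨j, h⟩ := dif_pos h

/-- The indicator of an inequality. -/
def lt' (m : ℕ) (a : Fin (N + 1)) : ℤ := if m < (a : ℕ) then 1 else 0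

theorem std_apply_cases (k : Fin (2 * N)) (a : Fin (N + 1)) :
    ((a : ℕ) = (k : ℕ) / 2 ∧ ((std N (FreeGroup.of k) a : Fin (N + 1)) : ℕ) = (k : ℕ) / 2 + 1 ∧
      sgn (std N (FreeGroup.of k)) a = 1) ∨
    ((a : ℕ) = (k : ℕ) / 2 + 1 ∧ ((std N (FreeGroup.of k) a : Fin (N + 1)) : ℕ) = (k : ℕ) / 2 ∧
      sgn (std N (FreeGroup.of k)) a = -1) ∨
    ((a : ℕ) ≠ (k : ℕ) / 2 ∧ (a : ℕ) ≠ (k : ℕ) / 2 + 1 ∧ std N (FreeGroup.of k) a = a ∧
      sgn (std N (FreeGroup.of k)) a = 0) := by
  rw [std_of]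
  have hlt : (⟨(k : ℕ) / 2, by omega⟩ : Fin (N + 1)) < ⟨(k : ℕ) / 2 + 1, by omega⟩ := by
    show (k : ℕ) / 2 < (k : ℕ) / 2 + 1
    omega
  by_cases h1 : a = ⟨(k : ℕ) / 2, by omega⟩
  · left
    subst h1
    exact ⟨rfl, by rw [Equiv.swap_apply_left], sgn_lt hlt⟩
  · by_cases h2 : a = ⟨(k : ℕ) / 2 + 1, by omega⟩
    · right; left
      subst h2
      exact ⟨rfl, by rw [Equiv.swap_apply_right], sgn_gt hlt⟩
    · right; right
      have h3 := Equiv.swap_apply_of_ne_of_ne h1 h2
      refine ⟨fun h => h1 (Fin.ext h), fun h => h2 (Fin.ext h), h3, sgn_of_fix h3⟩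

/-- The potential. -/
theorem std_pot (x : FreeGroup (Fin (2 * N))) : ∀ (a : Fin (N + 1)) (m : ℕ), m < N →
    vN (lam (std N) x a) (2 * m) + vN (lam (std N) x a) (2 * m + 1) =
      lt' m (std N x a) - lt' m a := by
  induction x using FreeGroup.induction_on with
  | C1 =>
    intro a m hm
    rw [lam_one, map_one, Equiv.Perm.one_apply]
    simp [vN]
  | of k =>
    intro a m hm
    rw [lam_of, vN_lt _ (show 2 * m < 2 * N by omega), vN_lt _ (show 2 * m + 1 < 2 * N by omega)]
    simp only [Pi.smul_apply, ev, Pi.single_apply, smul_eq_mul, lt', Fin.ext_iff]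
    rcases std_apply_cases k a with ⟨h1, h2, h3⟩ | ⟨h1, h2, h3⟩ | ⟨h1, h2, h3, h4⟩
    · rw [h2, h3, h1]
      split_ifs <;> omega
    · rw [h2, h3, h1]
      split_ifs <;> omega
    · rw [h3, h4]
      simp
  | inv_of k hk =>
    intro a m hm
    have e : lam (std N) (FreeGroup.of k)⁻¹ a =
        - lam (std N) (FreeGroup.of k) (std N (FreeGroup.of k)⁻¹ a) := lam_inv _ _ _
    have h1 := hk (std N (FreeGroup.of k)⁻¹ a) m hm
    have h2 : std N (FreeGroup.of k) (std N (FreeGroup.of k)⁻¹ a) = a := by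
      rw [map_inv]
      simp
    rw [h2] at h1
    rw [vN_lt _ (show 2 * m < 2 * N by omega), vN_lt _ (show 2 * m + 1 < 2 * N by omega)] at *
    rw [e]
    simp only [Pi.neg_apply]
    omega
  | mul x y hx hy =>
    intro a m hm
    have h1 := hy a m hm
    have h2 := hx (std N y a) m hm
    rw [vN_lt _ (show 2 * m < 2 * N by omega), vN_lt _ (show 2 * m + 1 < 2 * N by omega)] at *
    rw [lam_mul, map_mul, Equiv.Perm.mul_apply]
    simp only [Pi.add_apply]
    omega

/-- The indicator of an equality. -/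
def eq' (m : ℕ) (a : Fin (N + 1)) : ℤ := if (a : ℕ) = m then 1 else 0

theorem std_pair (hd : 0 < 2 * N) {m : ℕ} (hm : m < N) :
    std N (gx hd (2 * m) * gx hd (2 * m + 1)) = 1 := by
  rw [gx_of hd (show 2 * m < 2 * N by omega), gx_of hd (show 2 * m + 1 < 2 * N by omega), map_mul,
    std_of, std_of]
  have h1 : (2 * m) / 2 = m := by omega
  have h2 : (2 * m + 1) / 2 = m := by omega
  simp only [h1, h2]
  exact Equiv.swap_mul_self _ _

theorem std_pr_even (hd : 0 < 2 * N) (m : ℕ) (hm : m ≤ N) :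
    ∀ (a : Fin (N + 1)) (k : Fin (2 * N)), lam (std N) (pr hd (2 * m)) a k =
      if (k : ℕ) < 2 * m then (eq' ((k : ℕ) / 2 + 1) a - eq' ((k : ℕ) / 2) a) *
        (if (k : ℕ) % 2 = 0 then 1 else -1) else 0 := by
  induction m with
  | zero =>
    intro a k
    simp [pr]
  | succ m ih =>
    intro a k
    have ih' := ih (by omega)
    rw [show 2 * (m + 1) = 2 * m + 1 + 1 by ring, pr_succ, pr_succ, mul_assoc, lam_mul,
      std_pair hd (by omega), Equiv.Perm.one_apply, Pi.add_apply, ih', lam_mul, Pi.add_apply,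
      gx_of hd (show 2 * m < 2 * N by omega), gx_of hd (show 2 * m + 1 < 2 * N by omega),
      lam_of, lam_of]
    have h1 : (2 * m) / 2 = m := by omega
    have h2 : (2 * m + 1) / 2 = m := by omega
    have e : std N (FreeGroup.of ⟨2 * m, by omega⟩) = std N (FreeGroup.of ⟨2 * m + 1, by omega⟩) := by
      rw [std_of, std_of]
      simp only [h1, h2]
    have hs : (std N (FreeGroup.of ⟨2 * m + 1, by omega⟩)).IsSwap := by
      rw [std_of]
      refine ⟨_, _, ?_, rfl⟩
      intro h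
      have := congrArg Fin.val h
      simp at this
    rw [e, sgn_swap hs]
    simp only [Pi.smul_apply, ev, Pi.single_apply, smul_eq_mul, Fin.ext_iff]
    have hc := std_apply_cases (⟨2 * m + 1, by omega⟩ : Fin (2 * N)) a
    simp only [h2] at hc
    have hk : (k : ℕ) < 2 * m ∨ (k : ℕ) = 2 * m ∨ (k : ℕ) = 2 * m + 1 ∨ 2 * m + 1 < (k : ℕ) := by
      omega
    rcases hk with hk | hk | hk | hk
    · have b1 : ¬ (k : ℕ) = 2 * m + 1 := by omega
      have b2 : ¬ (k : ℕ) = 2 * m := by omega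
      have b3 : (k : ℕ) < 2 * m := by omega
      have b4 : (k : ℕ) < 2 * m + 1 + 1 := by omega
      rw [if_neg b1, if_neg b2, if_pos b3, if_pos b4]
      ring
    · have b1 : ¬ (k : ℕ) = 2 * m + 1 := by omega
      have b2 : (k : ℕ) = 2 * m := by omega
      have b3 : ¬ (k : ℕ) < 2 * m := by omega
      have b4 : (k : ℕ) < 2 * m + 1 + 1 := by omega
      have b5 : (k : ℕ) % 2 = 0 := by omega
      have h3 : (k : ℕ) / 2 = m := by omega
      rw [if_neg b1, if_pos b2, if_neg b3, if_pos b4, if_pos b5, h3, eq', eq']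
      rcases hc with ⟨c1, -, c3⟩ | ⟨c1, -, c3⟩ | ⟨c1, c2, -, c3⟩
      · rw [c3, c1]; simp
      · rw [c3, c1]; simp
      · rw [c3, if_neg c2, if_neg c1]; simp
    · have b1 : (k : ℕ) = 2 * m + 1 := by omega
      have b2 : ¬ (k : ℕ) = 2 * m := by omega
      have b3 : ¬ (k : ℕ) < 2 * m := by omega
      have b4 : (k : ℕ) < 2 * m + 1 + 1 := by omega
      have b5 : ¬ (k : ℕ) % 2 = 0 := by omega
      have h3 : (k : ℕ) / 2 = m := by omega
      rw [if_pos b1, if_neg b2, if_neg b3, if_pos b4, if_neg b5, h3, eq', eq']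
      rcases hc with ⟨c1, -, c3⟩ | ⟨c1, -, c3⟩ | ⟨c1, c2, -, c3⟩
      · rw [c3, c1]; simp
      · rw [c3, c1]; simp
      · rw [c3, if_neg c2, if_neg c1]; simp
    · have b1 : ¬ (k : ℕ) = 2 * m + 1 := by omega
      have b2 : ¬ (k : ℕ) = 2 * m := by omega
      have b3 : ¬ (k : ℕ) < 2 * m := by omega
      have b4 : ¬ (k : ℕ) < 2 * m + 1 + 1 := by omega
      rw [if_neg b1, if_neg b2, if_neg b3, if_neg b4]
      ring

theorem std_bd (hd : 0 < 2 * N) (a : Fin (N + 1)) (k : Fin (2 * N)) :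
    bd (std N) hd a k = (eq' ((k : ℕ) / 2 + 1) a - eq' ((k : ℕ) / 2) a) *
        (if (k : ℕ) % 2 = 0 then 1 else -1) := by
  have := std_pr_even hd N le_rfl a k
  rw [if_pos k.2] at this
  exact this

/-- The partial sums of the even coordinates. -/
def RR (N : ℕ) (s : ℕ) : (Fin (2 * N) → ℤ) →ₗ[ℤ] ℤ where
  toFun v := ∑ m ∈ Finset.range s, vN v (2 * m)
  map_add' u v := by
    rw [← Finset.sum_add_distrib]
    apply Finset.sum_congr rfl
    intro m _
    rw [vN, vN, vN]
    split_ifs <;> simp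
  map_smul' c v := by
    rw [RingHom.id_apply, smul_eq_mul, Finset.mul_sum]
    apply Finset.sum_congr rfl
    intro m _
    rw [vN, vN]
    split_ifs <;> simp

theorem RR_apply (s : ℕ) (v : Fin (2 * N) → ℤ) :
    RR N s v = ∑ m ∈ Finset.range s, vN v (2 * m) := rfl

theorem RR_succ (s : ℕ) (v : Fin (2 * N) → ℤ) : RR N (s + 1) v = RR N s v + vN v (2 * s) := by
  rw [RR_apply, RR_apply, Finset.sum_range_succ]

theorem RR_bd (hd : 0 < 2 * N) {s : ℕ} (hs : s ≤ N) (a : Fin (N + 1)) :
    RR N s (bd (std N) hd a) = eq' s a - eq' 0 a := by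
  rw [RR_apply, ← Finset.sum_range_sub (fun m => eq' m a) s]
  apply Finset.sum_congr rfl
  intro m hm
  rw [Finset.mem_range] at hm
  rw [vN_lt _ (show 2 * m < 2 * N by omega), std_bd]
  simp

theorem std_span (hd : 0 < 2 * N) (x : FreeGroup (Fin (2 * N))) (a : Fin (N + 1))
    (hx : std N x a = a) :
    lam (std N) x a ∈ Submodule.span ℤ (Set.range (bd (std N) hd)) := by
  have key : lam (std N) x a = ∑ s : Fin (N + 1), RR N s (lam (std N) x a) • bd (std N) hd s := by
    funext k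
    rw [Finset.sum_apply]
    simp only [Pi.smul_apply, smul_eq_mul, std_bd]
    set v := lam (std N) x a with hv
    have h1 : ∀ t : ℕ, t < N + 1 → ∑ s : Fin (N + 1), RR N s v * eq' t s = RR N t v := by
      intro t ht
      rw [Finset.sum_eq_single ⟨t, ht⟩]
      · simp [eq']
      · intro s _ hs
        have : (s : ℕ) ≠ t := fun h => hs (Fin.ext h)
        simp [eq', this]
      · intro h; exact absurd (Finset.mem_univ _) h
    have h2 : ∀ ε : ℤ, ∑ s : Fin (N + 1), RR N s v *
        ((eq' ((k : ℕ) / 2 + 1) s - eq' ((k : ℕ) / 2) s) * ε) =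
        (RR N ((k : ℕ) / 2 + 1) v - RR N ((k : ℕ) / 2) v) * ε := by
      intro ε
      rw [← h1 _ (show (k : ℕ) / 2 + 1 < N + 1 by omega), ← h1 _ (show (k : ℕ) / 2 < N + 1 by omega),
        ← Finset.sum_sub_distrib, Finset.sum_mul]
      apply Finset.sum_congr rfl
      intro s _
      ring
    rw [h2, RR_succ]
    have h3 := std_pot x a ((k : ℕ) / 2) (by omega)
    rw [hx, sub_self, ← hv] at h3
    have hk : (k : ℕ) = 2 * ((k : ℕ) / 2) ∨ (k : ℕ) = 2 * ((k : ℕ) / 2) + 1 := by omega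
    rcases hk with hk | hk
    · rw [if_pos (by omega)]
      have h4 : vN v (2 * ((k : ℕ) / 2)) = v k := by
        rw [← hk, vN_lt v k.2]
      rw [h4]; ring
    · rw [if_neg (by omega)]
      have h4 : vN v (2 * ((k : ℕ) / 2) + 1) = v k := by
        rw [← hk, vN_lt v k.2]
      rw [h4] at h3
      linarith
  rw [key]
  apply Submodule.sum_mem
  intro s _
  apply Submodule.smul_mem
  exact Submodule.subset_span ⟨s, rfl⟩

theorem std_dual (hd : 0 < 2 * N) (i j a : Fin (N + 1)) :
    (RR N j - RR N i) (bd (std N) hd a) = (if a = j then 1 else 0) - (if a = i then 1 else 0) := by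
  rw [LinearMap.sub_apply, RR_bd hd (by omega), RR_bd hd (by omega), eq', eq', eq']
  simp only [Fin.ext_iff]
  ring

theorem rat_std (X : Covering (N + 1) (2 * N) 1) (hX : X.θ = std N) (hd : 0 < 2 * N) :
    Rat (std N) hd where
  simple := hX ▸ X.simple
  trans := hX ▸ X.connected
  span := std_span hd
  dual i j := ⟨RR N j - RR N i, std_dual hd i j⟩

/-! ### The half-twists with even index -/

theorem RR_c {m s : ℕ} (hm : m < N) (hs : s ≤ N) :
    RR N s (ev ⟨2 * m, by omega⟩ - ev ⟨2 * m + 1, by omega⟩) = if m < s then 1 else 0 := by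
  rw [RR_apply]
  have h1 : ∀ l ∈ Finset.range s,
      vN (ev (⟨2 * m, by omega⟩ : Fin (2 * N)) - ev ⟨2 * m + 1, by omega⟩) (2 * l) =
        if l = m then 1 else 0 := by
    intro l hl
    rw [Finset.mem_range] at hl
    rw [vN_lt _ (show 2 * l < 2 * N by omega)]
    simp only [Pi.sub_apply, ev, Pi.single_apply, Fin.ext_iff]
    split_ifs <;> omega
  rw [Finset.sum_congr rfl h1, Finset.sum_ite_eq']
  simp

/-- The half-twist with the index `2 m`. -/
def sg {m : ℕ} (hm : m < N) : Fin (2 * N - 1) := ⟨2 * m, by omega⟩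

theorem std_sig_eq {m : ℕ} (hm : m < N) :
    std N (FreeGroup.of (lo (sg hm))) = std N (FreeGroup.of (hi (sg hm))) := by
  have h1 : ((lo (sg hm) : Fin (2 * N)) : ℕ) / 2 = m := by
    simp only [lo, sg]; omega
  have h2 : ((hi (sg hm) : Fin (2 * N)) : ℕ) / 2 = m := by
    simp only [hi, sg]; omega
  rw [std_of, std_of]
  simp only [h1, h2]

theorem std_sig_mem {m : ℕ} (hm : m < N) : sig (sg hm) ∈ LB (std N) := by
  rw [mem_LB_iff]
  exact tang_th (std_sig_eq hm)

theorem std_q_sig {m : ℕ} (hm : m < N) (hs : Simple (std N))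
    {Y : Fin (N + 1) → Fin (N + 1) → FreeGroup (Fin (2 * N))}
    (hY : ∀ i j, std N (Y i j) i = j) (i j : Fin (N + 1)) :
    q (std N) (fun i j => RR N j - RR N i) Y (sig (sg hm)) i j = (lt' m j - lt' m i) ^ 2 := by
  rw [q, S, tang_lam hs (std_sig_eq hm), add_sub_cancel_left, map_smul]
  have h1 := std_pot (Y i j) i m hm
  rw [hY, vN_lt _ (show 2 * m < 2 * N by omega), vN_lt _ (show 2 * m + 1 < 2 * N by omega)] at h1
  have h2 : lam (std N) (Y i j) i (lo (sg hm)) +
      lam (std N) (Y i j) i (hi (sg hm)) = lt' m j - lt' m i := h1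
  have h3 : ∀ s : Fin (N + 1), RR N s (ev (lo (sg hm)) - ev (hi (sg hm))) = lt' m s := by
    intro s
    exact RR_c hm (by omega)
  rw [h2, LinearMap.sub_apply, h3, h3, smul_eq_mul]
  ring

theorem choices_std {X : Covering (N + 1) (2 * N) 1} (hX : X.θ = std N) (hd : 0 < 2 * N)
    {Y : Fin (N + 1) → Fin (N + 1) → FreeGroup (Fin (2 * N))} (hY : ∀ i j, X.θ (Y i j) i = j) :
    Choices X.θ hd (fun i j => RR N j - RR N i) Y := by
  refine ⟨?_, hY⟩
  intro i j a
  rw [hX]
  exact std_dual hd i j a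

/-- The braids of the special points generate a proper subgroup: at least five sheets. -/
theorem proper_std (hN : 4 ≤ N) (X : Covering (N + 1) (2 * N) 1) (hX : X.θ = std N) :
    Subgroup.closure {b | ∃ p ∈ X.F, p.braid = b} < LB X.θ := by
  have hd : 0 < 2 * N := by omega
  have h := rat_std X hX hd
  have h' : Rat X.θ hd := hX ▸ h
  choose Y hY using X.connected
  have c := choices_std hX hd hY
  let s : Fin 5 → Fin (N + 1) := fun u => ⟨u, by omega⟩
  have hs : Function.Injective s := by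
    intro u v huv
    have h1 : ((s u : Fin (N + 1)) : ℕ) = (s v : Fin (N + 1)) := congrArg Fin.val huv
    exact Fin.ext h1
  have key := fun b hb => psi_closure X h' c s hs (b := b) hb
  refine lt_of_le_of_ne (fun b hb => (key b hb).1) ?_
  intro heq
  have hmem : sig (sg (show 1 < N by omega)) ∈
      Subgroup.closure {b | ∃ p ∈ X.F, p.braid = b} := by
    rw [heq, hX]
    exact std_sig_mem _
  have h1 := (key _ hmem).2
  rw [hX] at h1 hY
  simp only [psi, std_q_sig (show 1 < N by omega) h.simple hY] at h1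
  simp [lt', s] at h1

end Pool.Agent.Helper834.Gen
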